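import Mathlib

set_option autoImplicit false

/-! Choice of the parameters with two prescribed ramified primes. -/

namespace Pool.Agent.Q22.CG

/-- exactness at a prime dividing `t - s` exactly once -/
lemma exact_one {ℓ : ℕ} (hℓ : ℓ.Prime) {m : ℕ} (hm : ¬ ℓ ∣ m) {s g : ℤ} (hs : ¬ (ℓ : ℤ) ∣ s)
    (hg : ¬ (ℓ : ℤ) ∣ g) :
    (ℓ : ℤ) ∣ (s + g * ℓ) ^ m - s ^ m ∧ ¬ (ℓ : ℤ) ^ 2 ∣ (s + g * ℓ) ^ m - s ^ m := by
  have hp : Prime (ℓ : ℤ) := Nat.prime_iff_prime_int.1 hℓ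
  obtain ⟨k, hk⟩ := Polynomial.powAddExpansion s (g * ℓ) m
  constructor
  · rw [hk]
    exact ⟨m * s ^ (m - 1) * g + k * g ^ 2 * ℓ, by ring⟩
  · intro h
    rw [hk] at h
    have h1 : (ℓ : ℤ) ^ 2 ∣ m * s ^ (m - 1) * (g * ℓ) := by
      have h2 : (ℓ : ℤ) ^ 2 ∣ k * (g * ℓ) ^ 2 := ⟨k * g ^ 2, by ring⟩
      have h3 := h.sub h2
      have h4 : s ^ m + ↑m * s ^ (m - 1) * (g * ↑ℓ) + k * (g * ↑ℓ) ^ 2 - s ^ m - k * (g * ↑ℓ) ^ 2 =
          m * s ^ (m - 1) * (g * ℓ) := by ring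
      rwa [h4] at h3
    have h2 : (ℓ : ℤ) ∣ m * s ^ (m - 1) * g := by
      obtain ⟨v, hv⟩ := h1
      refine ⟨v, ?_⟩
      apply mul_right_cancel₀ hp.ne_zero
      linear_combination hv
    rcases hp.dvd_or_dvd h2 with h3 | h3
    · rcases hp.dvd_or_dvd h3 with h4 | h4
      · exact hm (by exact_mod_cast h4)
      · exact hs (hp.dvd_of_dvd_pow h4)
    · exact hg h3

/-- two parameters with the same residue modulo `q` are not both bad -/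
lemma hensel {q : ℕ} (hq : q.Prime) {m : ℕ} (hm1 : 1 ≤ m) (hm : ¬ q ∣ m) {s u e : ℤ}
    (hu : ¬ (q : ℤ) ∣ u) (he : ¬ (q : ℤ) ∣ e) (h1 : (q : ℤ) ^ 2 ∣ (s + u) ^ m - s ^ m)
    (h2 : (q : ℤ) ^ 2 ∣ (s + e * q + u) ^ m - (s + e * q) ^ m) : False := by
  have hp : Prime (q : ℤ) := Nat.prime_iff_prime_int.1 hq
  obtain ⟨k, hk⟩ := Polynomial.powAddExpansion s (e * q) m
  obtain ⟨k', hk'⟩ := Polynomial.powAddExpansion (s + u) (e * q) m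
  have h3 : s + e * q + u = s + u + e * q := by ring
  rw [h3, hk, hk'] at h2
  have h4 : (q : ℤ) ^ 2 ∣ m * ((s + u) ^ (m - 1) - s ^ (m - 1)) * (e * q) := by
    have h5 : (q : ℤ) ^ 2 ∣ (k' - k) * (e * q) ^ 2 := ⟨(k' - k) * e ^ 2, by ring⟩
    have h6 := (h2.sub h1).sub h5
    have h7 : ((s + u) ^ m + ↑m * (s + u) ^ (m - 1) * (e * ↑q) + k' * (e * ↑q) ^ 2 -
        (s ^ m + ↑m * s ^ (m - 1) * (e * ↑q) + k * (e * ↑q) ^ 2) - ((s + u) ^ m - s ^ m) -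
        (k' - k) * (e * ↑q) ^ 2) = m * ((s + u) ^ (m - 1) - s ^ (m - 1)) * (e * q) := by ring
    rwa [h7] at h6
  have h5 : (q : ℤ) ∣ m * ((s + u) ^ (m - 1) - s ^ (m - 1)) * e := by
    obtain ⟨v, hv⟩ := h4
    refine ⟨v, ?_⟩
    apply mul_right_cancel₀ hp.ne_zero
    linear_combination hv
  have h6 : (q : ℤ) ∣ (s + u) ^ (m - 1) - s ^ (m - 1) := by
    rcases hp.dvd_or_dvd h5 with h6 | h6
    · rcases hp.dvd_or_dvd h6 with h7 | h7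
      · exact absurd (by exact_mod_cast h7) hm
      · exact h7
    · exact absurd h6 he
  have h7 : (q : ℤ) ∣ (s + u) ^ m - s ^ m := (dvd_pow_self _ (by norm_num)).trans h1
  obtain ⟨m', rfl⟩ : ∃ m', m = m' + 1 := ⟨m - 1, by omega⟩
  rw [Nat.add_sub_cancel] at h6
  have h8 : (q : ℤ) ∣ s ^ m' * u := by
    have h9 := h7.sub (h6.mul_left (s + u))
    have h10 : (s + u) ^ (m' + 1) - s ^ (m' + 1) - (s + u) * ((s + u) ^ m' - s ^ m') = s ^ m' * u := by ring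
    rwa [h10] at h9
  rcases hp.dvd_or_dvd h8 with h9 | h9
  · have h10 : (q : ℤ) ∣ s := hp.dvd_of_dvd_pow h9
    have h11 : (q : ℤ) ∣ (s + u) ^ (m' + 1) := by
      have := h7.add (dvd_pow h10 (Nat.succ_ne_zero m'))
      simpa using this
    have h12 := hp.dvd_of_dvd_pow h11
    exact hu ((dvd_add_right h10).1 h12)
  · exact hu h9

/-- **Choice.** -/
theorem choice (m p : ℕ) (hm : 2 ≤ m) (hp : p.Prime) (hpm : p ∣ m) (M s₀ g : ℤ) (hM : 0 < M)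
    (hcop : IsCoprime s₀ M) (x y : ℝ) (hx : 1 < x) (hxy : x < y) (hg : 0 < g) (hgM : g ∣ M) :
    ∃ c₀ : ℝ, 0 < c₀ ∧ c₀ ≤ 1 / 2 ∧ ∃ Q₀ : ℕ, ∀ ℓ q : ℕ, ℓ.Prime → q.Prime → Q₀ < ℓ → Q₀ < q →
      p ∣ q - 1 → (q : ℝ) ≤ c₀ * ℓ →
      ∃ s : ℤ, M ∣ s - s₀ ∧ 0 < s ∧ IsCoprime s (s + g * ℓ) ∧ x * s < s + g * ℓ ∧
        (s : ℝ) + g * ℓ < y * s ∧ ¬ (ℓ : ℤ) ∣ s ∧ ¬ (q : ℤ) ∣ s ∧
        (ℓ : ℤ) ∣ (s + g * ℓ) ^ m - s ^ m ∧ ¬ (ℓ : ℤ) ^ 2 ∣ (s + g * ℓ) ^ m - s ^ m ∧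
        (q : ℤ) ∣ (s + g * ℓ) ^ m - s ^ m ∧ ¬ (q : ℤ) ^ 2 ∣ (s + g * ℓ) ^ m - s ^ m := by
  have hMR : (1 : ℝ) ≤ M := by exact_mod_cast hM
  have hgR : (1 : ℝ) ≤ g := by exact_mod_cast hg
  obtain ⟨lam, hlam⟩ : ∃ lam : ℝ, lam = 1 / (x - 1) - 1 / (y - 1) := ⟨_, rfl⟩
  have hx1 : 0 < x - 1 := by linarith
  have hy1 : 0 < y - 1 := by linarith
  have hlam0 : 0 < lam := by
    rw [hlam, sub_pos]
    exact one_div_lt_one_div_of_lt hx1 (by linarith)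
  refine ⟨min (1 / 2) (lam / (4 * M)), lt_min (by norm_num) (by positivity), min_le_left _ _,
    M.natAbs + m + 2, ?_⟩
  intro ℓ q hℓ hq hℓQ hqQ hpq hqℓ
  have hpl : Prime (ℓ : ℤ) := Nat.prime_iff_prime_int.1 hℓ
  have hpq' : Prime (q : ℤ) := Nat.prime_iff_prime_int.1 hq
  have hℓ0 : (0 : ℝ) < ℓ := by exact_mod_cast hℓ.pos
  have hq0 : (0 : ℝ) < q := by exact_mod_cast hq.pos
  have hqℓ' : q < ℓ := by
    have h1 : (q : ℝ) ≤ 1 / 2 * ℓ := hqℓ.trans (mul_le_mul_of_nonneg_right (min_le_left _ _) hℓ0.le)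
    have h2 : (q : ℝ) < ℓ := by linarith
    exact_mod_cast h2
  have hnd : ∀ r : ℕ, r.Prime → M.natAbs + m + 2 < r → (¬ (r : ℤ) ∣ M) ∧ ¬ r ∣ m ∧ 3 ≤ r := by
    intro r hr hrQ
    refine ⟨fun h => ?_, fun h => ?_, by omega⟩
    · have h1 := Int.le_of_dvd hM h
      omega
    · have := Nat.le_of_dvd (by omega) h
      omega
  obtain ⟨hℓM, hℓm, hℓ3⟩ := hnd ℓ hℓ hℓQ
  obtain ⟨hqM, hqm, hq3⟩ := hnd q hq hqQ
  have hℓg : ¬ (ℓ : ℤ) ∣ g := fun h => hℓM (h.trans hgM)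
  have hqg : ¬ (q : ℤ) ∣ g := fun h => hqM (h.trans hgM)
  have hℓq : ¬ (ℓ : ℤ) ∣ q := by
    intro h
    have h1 : ℓ ∣ q := by exact_mod_cast h
    have := Nat.le_of_dvd hq.pos h1
    omega
  have hqℓd : ¬ (q : ℤ) ∣ ℓ := by
    intro h
    have h1 : q ∣ ℓ := by exact_mod_cast h
    rcases (Nat.dvd_prime hℓ).1 h1 with h2 | h2
    · exact hq.one_lt.ne' h2
    · omega
  obtain ⟨u, hu⟩ : ∃ u : ℤ, u = g * ℓ := ⟨_, rfl⟩
  have hqu : ¬ (q : ℤ) ∣ u := by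
    rw [hu]
    intro h
    rcases hpq'.dvd_or_dvd h with h | h
    · exact hqg h
    · exact hqℓd h
  rw [← hu]
  have huR : (u : ℝ) = g * ℓ := by rw [hu]; push_cast; rfl
  have hu0 : (0 : ℝ) < u := by rw [huR]; positivity
  -- the root of unity
  have := Fact.mk hq
  have := Fact.mk hp
  obtain ⟨ρ', hρ'⟩ := exists_prime_orderOf_dvd_card (G := (ZMod q)ˣ) p (by
    rw [ZMod.card_units q]; exact hpq)
  obtain ⟨ρ, hρ⟩ : ∃ ρ : ZMod q, ρ = (ρ' : ZMod q) := ⟨_, rfl⟩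
  have hρm : ρ ^ m = 1 := by
    rw [hρ, ← Units.val_pow_eq_pow_val, orderOf_dvd_iff_pow_eq_one.1 (by rw [hρ']; exact hpm), Units.val_one]
  have hρ1 : ρ - 1 ≠ 0 := by
    intro h
    have h1 : ρ' = 1 := Units.ext (by rw [← hρ, Units.val_one]; exact sub_eq_zero.1 h)
    rw [h1, orderOf_one] at hρ'
    exact hp.one_lt.ne hρ'
  obtain ⟨r, hr⟩ : ∃ r : ℤ, (r : ZMod q) = (u : ZMod q) * (ρ - 1)⁻¹ := ZMod.intCast_surjective _
  -- CRT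
  have hMq : IsCoprime M (q : ℤ) := by
    rw [isCoprime_comm]
    exact (Prime.coprime_iff_not_dvd hpq').2 hqM
  obtain ⟨a, b, hab⟩ := hMq
  obtain ⟨s₁, hs₁⟩ : ∃ s₁ : ℤ, s₁ = s₀ + (r - s₀) * (a * M) := ⟨_, rfl⟩
  have hs₁M : M ∣ s₁ - s₀ := ⟨(r - s₀) * a, by rw [hs₁]; ring⟩
  have hs₁q : (q : ℤ) ∣ s₁ - r := ⟨(s₀ - r) * b, by rw [hs₁]; linear_combination (-(s₀ - r)) * hab⟩
  -- the candidates
  have hMq0 : (0 : ℝ) < M * q := by positivity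
  obtain ⟨j, hj⟩ : ∃ j : ℤ, j = ⌊((u : ℝ) / (y - 1) - s₁) / (M * q)⌋ := ⟨_, rfl⟩
  obtain ⟨sc, hsc⟩ : ∃ sc : ℤ → ℤ, sc = fun i => s₁ + (j + i) * (M * q) := ⟨_, rfl⟩
  have hscl : ∀ i : ℤ, 1 ≤ i → (u : ℝ) / (y - 1) < sc i := by
    intro i hi
    have h1 : ((u : ℝ) / (y - 1) - s₁) / (M * q) < j + 1 := by rw [hj]; exact Int.lt_floor_add_one _
    rw [div_lt_iff₀ hMq0] at h1
    have hi' : (1 : ℝ) ≤ i := by exact_mod_cast hi
    rw [hsc]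
    push_cast
    nlinarith
  have hscu : ∀ i : ℤ, i ≤ 3 → (sc i : ℝ) < u / (x - 1) := by
    intro i hi
    have h1 : (j : ℝ) ≤ ((u : ℝ) / (y - 1) - s₁) / (M * q) := by rw [hj]; exact Int.floor_le _
    rw [le_div_iff₀ hMq0] at h1
    have hi' : (i : ℝ) ≤ 3 := by exact_mod_cast hi
    have h2 : (q : ℝ) ≤ lam / (4 * M) * ℓ := hqℓ.trans (mul_le_mul_of_nonneg_right (min_le_right _ _) hℓ0.le)
    have h3 : 3 * (M * (q : ℝ)) < lam * u := by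
      have h4 : (M : ℝ) * q ≤ lam * ℓ / 4 := by
        calc (M : ℝ) * q ≤ M * (lam / (4 * M) * ℓ) := mul_le_mul_of_nonneg_left h2 (by linarith)
          _ = lam * ℓ / 4 := by field_simp
      have h5 : lam * ℓ ≤ lam * u := by
        rw [huR]
        apply mul_le_mul_of_nonneg_left _ hlam0.le
        nlinarith
      have h6 : 0 < lam * ℓ := by positivity
      linarith
    have h4 : (u : ℝ) / (x - 1) = u / (y - 1) + lam * u := by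
      rw [hlam]; ring
    have h5 : (i : ℝ) * (M * q) ≤ 3 * (M * q) := mul_le_mul_of_nonneg_right hi' hMq0.le
    rw [h4, hsc]
    push_cast
    nlinarith
  -- congruences
  have hscM : ∀ i, M ∣ sc i - s₀ := by
    intro i
    have h1 : sc i - s₀ = (s₁ - s₀) + M * ((j + i) * q) := by rw [hsc]; ring
    rw [h1]
    exact hs₁M.add (Dvd.intro _ rfl)
  have hscq : ∀ i, ((sc i : ℤ) : ZMod q) * (ρ - 1) = (u : ZMod q) := by
    intro i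
    have h1 : (q : ℤ) ∣ sc i - r := by
      have h2 : sc i - r = (s₁ - r) + q * ((j + i) * M) := by rw [hsc]; ring
      rw [h2]
      exact hs₁q.add (Dvd.intro _ rfl)
    have h2 : ((sc i : ℤ) : ZMod q) = (r : ZMod q) := by
      have := (ZMod.intCast_zmod_eq_zero_iff_dvd (sc i - r) q).2 h1
      push_cast at this
      exact sub_eq_zero.1 this
    rw [h2, hr, mul_assoc, inv_mul_cancel₀ hρ1, mul_one]
  have hscnq : ∀ i, ¬ (q : ℤ) ∣ sc i := by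
    intro i h
    have h1 := hscq i
    rw [(ZMod.intCast_zmod_eq_zero_iff_dvd _ q).2 h, zero_mul] at h1
    exact hqu ((ZMod.intCast_zmod_eq_zero_iff_dvd _ q).1 h1.symm)
  have hscd : ∀ i, (q : ℤ) ∣ (sc i + u) ^ m - sc i ^ m := by
    intro i
    rw [← ZMod.intCast_zmod_eq_zero_iff_dvd]
    push_cast
    have h1 : ((sc i : ℤ) : ZMod q) + (u : ZMod q) = ρ * (sc i : ZMod q) := by
      rw [← hscq i]; ring
    rw [h1, mul_pow, hρm, one_mul, sub_self]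
  -- not all three are bad
  have hℓ2 : ¬ (ℓ : ℤ) ∣ 2 := by
    intro h
    have := Int.le_of_dvd (by norm_num) h
    omega
  have hq2 : ¬ (q : ℤ) ∣ 2 := by
    intro h
    have := Int.le_of_dvd (by norm_num) h
    omega
  have hA : ∀ i e : ℤ, ¬ (ℓ : ℤ) ∣ e → (ℓ : ℤ) ∣ sc i → (ℓ : ℤ) ∣ sc (i + e) → False := by
    intro i e he h1 h2
    have h3 : sc (i + e) - sc i = e * (M * q) := by rw [hsc]; ring
    have h4 : (ℓ : ℤ) ∣ e * (M * q) := by rw [← h3]; exact h2.sub h1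
    rcases hpl.dvd_or_dvd h4 with h5 | h5
    · exact he h5
    · rcases hpl.dvd_or_dvd h5 with h6 | h6
      · exact hℓM h6
      · exact hℓq h6
  have hB : ∀ i e : ℤ, ¬ (q : ℤ) ∣ e → (q : ℤ) ^ 2 ∣ (sc i + u) ^ m - sc i ^ m →
      (q : ℤ) ^ 2 ∣ (sc (i + e) + u) ^ m - sc (i + e) ^ m → False := by
    intro i e he h1 h2
    have h3 : sc (i + e) = sc i + (e * M) * q := by rw [hsc]; ring
    rw [h3] at h2
    refine hensel hq (by omega) hqm hqu ?_ h1 h2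
    intro h
    rcases hpq'.dvd_or_dvd h with h | h
    · exact he h
    · exact hqM h
  have hℓ1 : ¬ (ℓ : ℤ) ∣ 1 := fun h => hpl.not_isUnit (isUnit_of_dvd_one h)
  have hq1 : ¬ (q : ℤ) ∣ 1 := fun h => hpq'.not_isUnit (isUnit_of_dvd_one h)
  obtain ⟨i, hi1, hi3, hgood1, hgood2⟩ : ∃ i : ℤ, 1 ≤ i ∧ i ≤ 3 ∧ ¬ (ℓ : ℤ) ∣ sc i ∧
      ¬ (q : ℤ) ^ 2 ∣ (sc i + u) ^ m - sc i ^ m := by
    by_contra hcon
    push Not at hcon
    have c1 : (ℓ : ℤ) ∣ sc 1 ∨ (q : ℤ) ^ 2 ∣ (sc 1 + u) ^ m - sc 1 ^ m :=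
      or_iff_not_imp_left.2 (hcon 1 (by norm_num) (by norm_num))
    have c2 : (ℓ : ℤ) ∣ sc 2 ∨ (q : ℤ) ^ 2 ∣ (sc 2 + u) ^ m - sc 2 ^ m :=
      or_iff_not_imp_left.2 (hcon 2 (by norm_num) (by norm_num))
    have c3 : (ℓ : ℤ) ∣ sc 3 ∨ (q : ℤ) ^ 2 ∣ (sc 3 + u) ^ m - sc 3 ^ m :=
      or_iff_not_imp_left.2 (hcon 3 (by norm_num) (by norm_num))
    rcases c1 with c1 | c1 <;> rcases c2 with c2 | c2 <;> rcases c3 with c3 | c3
    · exact hA 1 1 hℓ1 c1 c2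
    · exact hA 1 1 hℓ1 c1 c2
    · exact hA 1 2 hℓ2 c1 c3
    · exact hB 2 1 hq1 c2 c3
    · exact hA 2 1 hℓ1 c2 c3
    · exact hB 1 2 hq2 c1 c3
    · exact hB 1 1 hq1 c1 c2
    · exact hB 1 1 hq1 c1 c2
  have hpos : (0 : ℝ) < sc i := lt_trans (by positivity) (hscl i hi1)
  have hex := exact_one hℓ hℓm hgood1 hℓg
  rw [← hu] at hex
  refine ⟨sc i, hscM i, by exact_mod_cast hpos, ?_, ?_, ?_, hgood1, hscnq i, hex.1, hex.2, hscd i, hgood2⟩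
  · have h1 : IsCoprime (sc i) M := by
      obtain ⟨v, hv⟩ := hscM i
      have h2 : sc i = s₀ + M * v := by linear_combination hv
      rw [h2]
      exact IsCoprime.add_mul_left_left hcop v
    have h2 : IsCoprime (sc i) g := IsCoprime.of_isCoprime_of_dvd_right h1 hgM
    have h3 : IsCoprime (sc i) (ℓ : ℤ) := by
      rw [isCoprime_comm]
      exact (Prime.coprime_iff_not_dvd hpl).2 hgood1
    have h4 : IsCoprime (sc i) u := by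
      rw [hu]; exact IsCoprime.mul_right h2 h3
    have h5 : sc i + u = u + sc i * 1 := by ring
    rw [h5]
    exact IsCoprime.add_mul_left_right h4 1
  · have h1 := hscu i hi3
    rw [lt_div_iff₀ hx1] at h1
    rw [huR] at h1
    nlinarith
  · have h1 := hscl i hi1
    rw [div_lt_iff₀ hy1] at h1
    rw [huR] at h1
    nlinarith

end Pool.Agent.Q22.CG
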