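import Pool.Agent.Q22.CG.Depth

set_option autoImplicit false

/-! The configurations. -/

namespace Pool.Agent.Q22.CG

open Finset Filter Topology

/-- the real numbers -/
def rc {n : ℕ} (a : Fin n → ℚ) : Fin n → ℝ := fun l => (a l : ℝ)

/-- the configurations -/
structure Conf {n : ℕ} (a : Fin (n + 1) → ℚ) : Prop where
  mono : StrictMono a
  neg : a 0 < -1
  pos : ∀ i : Fin n, 1 < a i.succ
  eq : ∏ l, (1 - a l) = ∏ l, (-1 - a l)
  inj : Function.Injective fun i : Fin n => dep i (rc a, 0)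

/-- the final configurations -/
structure Good2 {n : ℕ} (a : Fin (n + 1) → ℚ) : Prop where
  mono : StrictMono a
  far : ∀ l, a l < -1 ∨ 1 < a l
  eq : ∏ l, (1 - a l) = ∏ l, (-1 - a l)
  pos : 0 < ∏ l, (1 - a l)
  ex : ∃ l, 1 < a l
  inj : Function.Injective fun i : Fin n => dep i (rc a, 0)

/-- the determined root -/
def al (u w τ : ℚ) : ℚ := (u * (1 - τ) + w * (1 + τ)) / (u * (1 - τ) - w * (1 + τ))

lemma rc_snoc {n : ℕ} (a : Fin (n + 1) → ℚ) (N : ℚ) :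
    rc (Fin.snoc a N : Fin (n + 2) → ℚ) = (Fin.snoc (rc a) (N : ℝ) : Fin (n + 2) → ℝ) := by
  funext l
  refine Fin.lastCases ?_ (fun l => ?_) l
  · rw [rc, Fin.snoc_last, Fin.snoc_last]
  · rw [rc, Fin.snoc_castSucc, Fin.snoc_castSucc, rc]

lemma rc_cons {n : ℕ} (a : Fin (n + 1) → ℚ) (N : ℚ) :
    rc (Fin.cons (-N) a : Fin (n + 2) → ℚ) = (Fin.cons (-(N : ℝ)) (rc a) : Fin (n + 2) → ℝ) := by
  funext l
  refine Fin.cases ?_ (fun l => ?_) l
  · rw [rc, Fin.cons_zero, Fin.cons_zero]; push_cast; rfl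
  · rw [rc, Fin.cons_succ, Fin.cons_succ, rc]

section
variable {n : ℕ} (a : Fin (n + 1) → ℚ) (h : Conf a) (ε : ℚ)
include h

lemma uw : ∏ i : Fin n, (1 - a i.succ) - ∏ i : Fin n, (-1 - a i.succ) ≠ 0 ∧
    a 0 * (∏ i : Fin n, (1 - a i.succ) - ∏ i : Fin n, (-1 - a i.succ)) =
      ∏ i : Fin n, (1 - a i.succ) + ∏ i : Fin n, (-1 - a i.succ) := by
  have h1 := h.eq
  rw [Fin.prod_univ_succ, Fin.prod_univ_succ] at h1
  have h2 : a 0 * (∏ i : Fin n, (1 - a i.succ) - ∏ i : Fin n, (-1 - a i.succ)) =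
      ∏ i : Fin n, (1 - a i.succ) + ∏ i : Fin n, (-1 - a i.succ) := by linarith
  refine ⟨fun h3 => ?_, h2⟩
  rw [h3, mul_zero] at h2
  have h4 : ∏ i : Fin n, (1 - a i.succ) = 0 := by linarith
  rw [prod_eq_zero_iff] at h4
  obtain ⟨i, -, hi⟩ := h4
  have := h.pos i
  linarith

lemma tend : Tendsto (fun N : ℕ => (rc (Function.update a 0
      (al (∏ i : Fin n, (1 - a i.succ)) (∏ i : Fin n, (-1 - a i.succ)) (ε / N))), (ε : ℝ) / N))
    atTop (𝓝 (rc a, 0)) := by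
  obtain ⟨hne, huw⟩ := uw a h
  obtain ⟨u, hu⟩ : ∃ u : ℚ, u = ∏ i : Fin n, (1 - a i.succ) := ⟨_, rfl⟩
  obtain ⟨w, hw⟩ : ∃ w : ℚ, w = ∏ i : Fin n, (-1 - a i.succ) := ⟨_, rfl⟩
  rw [← hu, ← hw] at hne huw ⊢
  have hτ : Tendsto (fun N : ℕ => (ε : ℝ) / N) atTop (𝓝 0) :=
    tendsto_const_nhds.div_atTop tendsto_natCast_atTop_atTop
  refine Tendsto.prodMk_nhds ?_ hτ
  rw [tendsto_pi_nhds]
  intro l
  by_cases hl : l = 0
  · subst hl
    simp only [rc, Function.update_self]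
    have hneR : (u : ℝ) * (1 - 0) - w * (1 + 0) ≠ 0 := by
      have : ((u - w : ℚ) : ℝ) ≠ 0 := by exact_mod_cast hne
      push_cast at this
      simpa using this
    have hc : ContinuousAt (fun τ : ℝ => ((u : ℝ) * (1 - τ) + w * (1 + τ)) / (u * (1 - τ) - w * (1 + τ))) 0 := by
      apply ContinuousAt.div
      · fun_prop
      · fun_prop
      · exact hneR
    have h1 := hc.tendsto.comp hτ
    have h2 : ((u : ℝ) * (1 - 0) + w * (1 + 0)) / (u * (1 - 0) - w * (1 + 0)) = a 0 := by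
      rw [div_eq_iff hneR]
      have : ((a 0 * (u - w) : ℚ) : ℝ) = ((u + w : ℚ) : ℝ) := by rw [huw]
      push_cast at this
      linarith
    rw [h2] at h1
    refine h1.congr fun N => ?_
    simp only [Function.comp, al]
    push_cast
    rfl
  · simp only [rc, Function.update_of_ne hl]
    exact tendsto_const_nhds

/-- all the conditions which hold for large `N` -/
lemma large : ∀ᶠ N : ℕ in atTop, 2 ≤ N ∧
    (∀ i j : Fin n, i ≠ j →
      dep i (rc (Function.update a 0 (al (∏ i : Fin n, (1 - a i.succ)) (∏ i : Fin n, (-1 - a i.succ)) (ε / N))), (ε : ℝ) / N) ≠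
      dep j (rc (Function.update a 0 (al (∏ i : Fin n, (1 - a i.succ)) (∏ i : Fin n, (-1 - a i.succ)) (ε / N))), (ε : ℝ) / N)) ∧
    (∀ l, |rc (Function.update a 0 (al (∏ i : Fin n, (1 - a i.succ)) (∏ i : Fin n, (-1 - a i.succ)) (ε / N))) l| ≤
      1 + ∑ l, |(a l : ℝ)|) ∧
    (∀ i : Fin n, dep i (rc (Function.update a 0 (al (∏ i : Fin n, (1 - a i.succ)) (∏ i : Fin n, (-1 - a i.succ)) (ε / N))), (ε : ℝ) / N) <
      ((N : ℝ) / 2 - (1 + ∑ l, |(a l : ℝ)|)) / 2) ∧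
    2 * (1 + ∑ l, |(a l : ℝ)|) + 2 ≤ (N : ℝ) ∧
    al (∏ i : Fin n, (1 - a i.succ)) (∏ i : Fin n, (-1 - a i.succ)) (ε / N) < -1 ∧
    (∏ i : Fin n, (1 - a i.succ)) * (1 - ε / N) - (∏ i : Fin n, (-1 - a i.succ)) * (1 + ε / N) ≠ 0 := by
  have ht := tend a h ε
  have hdep : ∀ i : Fin n, Tendsto (fun N : ℕ => dep i (rc (Function.update a 0
      (al (∏ i : Fin n, (1 - a i.succ)) (∏ i : Fin n, (-1 - a i.succ)) (ε / N))), (ε : ℝ) / N)) atTop
      (𝓝 (dep i (rc a, 0))) := fun i => ((continuous_dep i).tendsto _).comp ht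
  have e1 : ∀ᶠ N : ℕ in atTop, 2 ≤ N := eventually_ge_atTop 2
  have e2 : ∀ᶠ N : ℕ in atTop, ∀ i j : Fin n, i ≠ j →
      dep i (rc (Function.update a 0 (al (∏ i : Fin n, (1 - a i.succ)) (∏ i : Fin n, (-1 - a i.succ)) (ε / N))), (ε : ℝ) / N) ≠
      dep j (rc (Function.update a 0 (al (∏ i : Fin n, (1 - a i.succ)) (∏ i : Fin n, (-1 - a i.succ)) (ε / N))), (ε : ℝ) / N) := by
    rw [eventually_all]
    intro i
    rw [eventually_all]
    intro j
    by_cases hij : i = j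
    · exact Eventually.of_forall fun N h => absurd hij h
    · have h1 : dep i (rc a, 0) - dep j (rc a, 0) ≠ 0 := sub_ne_zero.2 fun h2 => hij (h.inj h2)
      filter_upwards [((hdep i).sub (hdep j)).eventually_ne h1] with N h2 _
      exact sub_ne_zero.1 h2
  have htl : ∀ l, Tendsto (fun N : ℕ => rc (Function.update a 0
      (al (∏ i : Fin n, (1 - a i.succ)) (∏ i : Fin n, (-1 - a i.succ)) (ε / N))) l) atTop (𝓝 (a l : ℝ)) := by
    have h1 : Tendsto (fun N : ℕ => rc (Function.update a 0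
      (al (∏ i : Fin n, (1 - a i.succ)) (∏ i : Fin n, (-1 - a i.succ)) (ε / N)))) atTop (𝓝 (rc a)) :=
      (continuous_fst.tendsto _).comp ht
    rw [tendsto_pi_nhds] at h1
    exact h1
  have e3 : ∀ᶠ N : ℕ in atTop, ∀ l, |rc (Function.update a 0 (al (∏ i : Fin n, (1 - a i.succ)) (∏ i : Fin n, (-1 - a i.succ)) (ε / N))) l| ≤
      1 + ∑ l, |(a l : ℝ)| := by
    rw [eventually_all]
    intro l
    have h1 : |(a l : ℝ)| < 1 + ∑ l, |(a l : ℝ)| := by
      have := single_le_sum (f := fun l => |(a l : ℝ)|) (fun l _ => abs_nonneg _) (mem_univ l)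
      linarith
    filter_upwards [(htl l).abs.eventually_lt_const h1] with N hN
    exact hN.le
  have hbig : ∀ K : ℝ, ∀ᶠ N : ℕ in atTop, K < ((N : ℝ) / 2 - (1 + ∑ l, |(a l : ℝ)|)) / 2 := by
    intro K
    filter_upwards [tendsto_natCast_atTop_atTop.eventually_gt_atTop
      (2 * (2 * K + (1 + ∑ l, |(a l : ℝ)|)))] with N hN
    linarith
  have e4 : ∀ᶠ N : ℕ in atTop, ∀ i : Fin n, dep i (rc (Function.update a 0 (al (∏ i : Fin n, (1 - a i.succ)) (∏ i : Fin n, (-1 - a i.succ)) (ε / N))), (ε : ℝ) / N) <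
      ((N : ℝ) / 2 - (1 + ∑ l, |(a l : ℝ)|)) / 2 := by
    rw [eventually_all]
    intro i
    filter_upwards [(hdep i).eventually_lt_const (show dep i (rc a, 0) < dep i (rc a, 0) + 1 by linarith),
      hbig (dep i (rc a, 0) + 1)] with N h1 h2
    exact h1.trans h2
  have e5 : ∀ᶠ N : ℕ in atTop, 2 * (1 + ∑ l, |(a l : ℝ)|) + 2 ≤ (N : ℝ) :=
    tendsto_natCast_atTop_atTop.eventually_ge_atTop _
  have e6 : ∀ᶠ N : ℕ in atTop, al (∏ i : Fin n, (1 - a i.succ)) (∏ i : Fin n, (-1 - a i.succ)) (ε / N) < -1 := by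
    have h1 : ((a 0 : ℚ) : ℝ) < -1 := by exact_mod_cast h.neg
    filter_upwards [(htl 0).eventually_lt_const h1] with N hN
    rw [rc, Function.update_self] at hN
    exact_mod_cast hN
  have e7 : ∀ᶠ N : ℕ in atTop, (∏ i : Fin n, (1 - a i.succ)) * (1 - ε / N) -
      (∏ i : Fin n, (-1 - a i.succ)) * (1 + ε / N) ≠ 0 := by
    obtain ⟨hne, -⟩ := uw a h
    obtain ⟨u, hu⟩ : ∃ u : ℚ, u = ∏ i : Fin n, (1 - a i.succ) := ⟨_, rfl⟩
    obtain ⟨w, hw⟩ : ∃ w : ℚ, w = ∏ i : Fin n, (-1 - a i.succ) := ⟨_, rfl⟩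
    rw [← hu, ← hw] at hne ⊢
    have hτ : Tendsto (fun N : ℕ => (ε : ℝ) / N) atTop (𝓝 0) :=
      tendsto_const_nhds.div_atTop tendsto_natCast_atTop_atTop
    have hc : Continuous (fun τ : ℝ => (u : ℝ) * (1 - τ) - w * (1 + τ)) := by fun_prop
    have h1 := (hc.tendsto 0).comp hτ
    have h2 : (u : ℝ) * (1 - 0) - w * (1 + 0) ≠ 0 := by
      have : ((u - w : ℚ) : ℝ) ≠ 0 := by exact_mod_cast hne
      push_cast at this
      simpa using this
    filter_upwards [h1.eventually_ne h2] with N hN hN'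
    apply hN
    simp only [Function.comp]
    have : ((u * (1 - ε / N) - w * (1 + ε / N) : ℚ) : ℝ) = 0 := by rw [hN']; simp
    push_cast at this
    exact this
  filter_upwards [e1, e2, e3, e4, e5, e6, e7] with N h1 h2 h3 h4 h5 h6 h7
  exact ⟨h1, h2, h3, h4, h5, h6, h7⟩

end

end Pool.Agent.Q22.CG
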