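import Pool.Agent.Q22.CG.Conf

set_option autoImplicit false

/-! The configurations: existence. -/

namespace Pool.Agent.Q22.CG

open Finset Filter Topology

/-- adding a root on the right -/
theorem right {n : ℕ} (hn : 1 ≤ n) (a : Fin (n + 1) → ℚ) (h : Conf a) :
    ∃ a' : Fin (n + 2) → ℚ, Conf a' := by
  obtain ⟨N, hN2, hdist, hR, hdeep, hNR, hα, hne⟩ := (large a h 1).exists
  obtain ⟨u, hu⟩ : ∃ u : ℚ, u = ∏ i : Fin n, (1 - a i.succ) := ⟨_, rfl⟩
  obtain ⟨w, hw⟩ : ∃ w : ℚ, w = ∏ i : Fin n, (-1 - a i.succ) := ⟨_, rfl⟩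
  rw [← hu, ← hw] at hdist hR hdeep hα hne
  obtain ⟨α, hαd⟩ : ∃ α : ℚ, α = al u w (1 / N) := ⟨_, rfl⟩
  rw [← hαd] at hdist hR hdeep hα
  obtain ⟨R, hRd⟩ : ∃ R : ℝ, R = 1 + ∑ l, |(a l : ℝ)| := ⟨_, rfl⟩
  rw [← hRd] at hR hdeep hNR
  have hN0 : (0 : ℝ) < N := by exact_mod_cast (show 0 < N by omega)
  have hN0' : (0 : ℚ) < N := by exact_mod_cast (show 0 < N by omega)
  obtain ⟨b, hb⟩ : ∃ b : Fin (n + 1) → ℚ, b = Function.update a 0 α := ⟨_, rfl⟩
  rw [← hb] at hdist hR hdeep
  have hb0 : b 0 = α := by rw [hb, Function.update_self]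
  have hbs : ∀ i : Fin n, b i.succ = a i.succ := fun i => by
    rw [hb, Function.update_of_ne (Fin.succ_ne_zero i)]
  have hbmono : ∀ i : Fin n, b i.castSucc < b i.succ := by
    intro i
    rw [hbs]
    by_cases hi : i.castSucc = 0
    · rw [hi, hb0]
      have := h.pos i
      linarith
    · rw [hb, Function.update_of_ne hi]
      exact h.mono Fin.castSucc_lt_succ
  have hbN : ∀ l, b l < N := by
    intro l
    have h1 := (abs_le.1 (hR l)).2
    have h2 : (b l : ℝ) < N := by
      have h3 : (b l : ℝ) ≤ R := h1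
      have h4 : 0 ≤ R := (abs_nonneg _).trans (hR 0)
      linarith
    exact_mod_cast h2
  refine ⟨Fin.snoc b (N : ℚ), ?_, ?_, ?_, ?_, ?_⟩
  · rw [Fin.strictMono_iff_lt_succ]
    intro i
    refine Fin.lastCases ?_ (fun i => ?_) i
    · rw [Fin.snoc_castSucc, Fin.succ_last, Fin.snoc_last]
      exact hbN _
    · rw [Fin.snoc_castSucc, Fin.succ_castSucc, Fin.snoc_castSucc]
      exact hbmono i
  · rw [← Fin.castSucc_zero, Fin.snoc_castSucc, hb0]
    exact hα
  · intro i
    refine Fin.lastCases ?_ (fun i => ?_) i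
    · rw [Fin.succ_last, Fin.snoc_last]
      exact_mod_cast (show 1 < N by omega)
    · rw [Fin.succ_castSucc, Fin.snoc_castSucc, hbs]
      exact h.pos i
  · have p1 : ∀ x : ℚ, ∏ l, (x - b l) = (x - α) * ∏ i : Fin n, (x - a i.succ) := by
      intro x; rw [Fin.prod_univ_succ, hb0]; simp only [hbs]
    have p2 : ∀ x : ℚ, ∏ l : Fin (n + 2), (x - (Fin.snoc b (N : ℚ) : Fin (n + 2) → ℚ) l) =
        (∏ l, (x - b l)) * (x - N) := by
      intro x; rw [Fin.prod_univ_castSucc]; simp only [Fin.snoc_castSucc, Fin.snoc_last]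
    rw [p2, p2, p1, p1, ← hu, ← hw]
    have h1 : α * (u * (1 - 1 / N) - w * (1 + 1 / N)) = u * (1 - 1 / N) + w * (1 + 1 / N) := by
      rw [hαd, al, div_mul_cancel₀ _ hne]
    have h2 : α * (u * (N - 1) - w * (N + 1)) = u * (N - 1) + w * (N + 1) := by
      have h3 : α * (u * (N - 1) - w * (N + 1)) = N * (α * (u * (1 - 1 / N) - w * (1 + 1 / N))) := by
        field_simp
      rw [h3, h1]
      field_simp
    linear_combination h2
  · intro i j hij
    have hij' : dep i ((Fin.snoc (rc b) (N : ℝ) : Fin (n + 2) → ℝ), 0) =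
        dep j ((Fin.snoc (rc b) (N : ℝ) : Fin (n + 2) → ℝ), 0) := by
      have := hij
      simp only [rc_snoc] at this
      push_cast at this
      exact this
    have hlast := dep_last (rc b) N R hR hNR
    have hold : ∀ i : Fin n, dep i.castSucc ((Fin.snoc (rc b) (N : ℝ) : Fin (n + 2) → ℝ), 0) <
        dep (Fin.last n) ((Fin.snoc (rc b) (N : ℝ) : Fin (n + 2) → ℝ), 0) := by
      intro i
      rw [dep_snoc i (rc b) N hN0]
      have h1 := hdeep i
      push_cast at h1
      have h2 := mul_lt_mul_of_pos_left h1 hN0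
      refine lt_of_lt_of_le h2 (le_trans (le_of_eq ?_) hlast)
      ring
    revert hij'
    refine Fin.lastCases ?_ (fun i => ?_) i <;> refine Fin.lastCases ?_ (fun j => ?_) j
    · intro _; rfl
    · intro h1; exact absurd h1 (hold j).ne'
    · intro h1; exact absurd h1 (hold i).ne
    · intro h1
      rw [dep_snoc i (rc b) N hN0, dep_snoc j (rc b) N hN0] at h1
      have h2 := mul_left_cancel₀ hN0.ne' h1
      by_contra hne'
      have h3 := hdist i j (fun h4 => hne' (by rw [h4]))
      push_cast at h3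
      exact h3 h2

/-- adding a root on the left, at the end -/
theorem left {n : ℕ} (hn : 1 ≤ n) (hev : Even n) (a : Fin (n + 1) → ℚ) (h : Conf a) :
    ∃ a' : Fin (n + 2) → ℚ, Good2 a' := by
  obtain ⟨N, hN2, hdist, hR, hdeep, hNR, hα, hne⟩ := (large a h (-1)).exists
  obtain ⟨u, hu⟩ : ∃ u : ℚ, u = ∏ i : Fin n, (1 - a i.succ) := ⟨_, rfl⟩
  obtain ⟨w, hw⟩ : ∃ w : ℚ, w = ∏ i : Fin n, (-1 - a i.succ) := ⟨_, rfl⟩
  rw [← hu, ← hw] at hdist hR hdeep hα hne
  obtain ⟨α, hαd⟩ : ∃ α : ℚ, α = al u w (-1 / N) := ⟨_, rfl⟩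
  rw [← hαd] at hdist hR hdeep hα
  obtain ⟨R, hRd⟩ : ∃ R : ℝ, R = 1 + ∑ l, |(a l : ℝ)| := ⟨_, rfl⟩
  rw [← hRd] at hR hdeep hNR
  have hN0 : (0 : ℝ) < N := by exact_mod_cast (show 0 < N by omega)
  have hN0' : (0 : ℚ) < N := by exact_mod_cast (show 0 < N by omega)
  have hN1' : (1 : ℚ) < N := by exact_mod_cast (show 1 < N by omega)
  obtain ⟨b, hb⟩ : ∃ b : Fin (n + 1) → ℚ, b = Function.update a 0 α := ⟨_, rfl⟩
  rw [← hb] at hdist hR hdeep
  have hb0 : b 0 = α := by rw [hb, Function.update_self]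
  have hbs : ∀ i : Fin n, b i.succ = a i.succ := fun i => by
    rw [hb, Function.update_of_ne (Fin.succ_ne_zero i)]
  have hbmono : ∀ i : Fin n, b i.castSucc < b i.succ := by
    intro i
    rw [hbs]
    by_cases hi : i.castSucc = 0
    · rw [hi, hb0]
      have := h.pos i
      linarith
    · rw [hb, Function.update_of_ne hi]
      exact h.mono Fin.castSucc_lt_succ
  have hbN : -(N : ℚ) < b 0 := by
    have h1 := (abs_le.1 (hR 0)).1
    have h2 : -(N : ℝ) < b 0 := by
      have h3 : -R ≤ (b 0 : ℝ) := h1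
      have h4 : 0 ≤ R := (abs_nonneg _).trans (hR 0)
      linarith
    exact_mod_cast h2
  have hupos : 0 < u := by
    have h1 : u = ∏ i : Fin n, (a i.succ - 1) := by
      rw [hu]
      have h2 : ∀ i : Fin n, 1 - a i.succ = (-1) * (a i.succ - 1) := fun i => by ring
      rw [prod_congr rfl fun i _ => h2 i, prod_mul_distrib, prod_const, card_univ, Fintype.card_fin,
        hev.neg_one_pow, one_mul]
    rw [h1]
    exact prod_pos fun i _ => by have := h.pos i; linarith
  refine ⟨Fin.cons (-(N : ℚ)) b, ?_, ?_, ?_, ?_, ?_, ?_⟩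
  · rw [Fin.strictMono_iff_lt_succ]
    intro i
    refine Fin.cases ?_ (fun i => ?_) i
    · rw [Fin.castSucc_zero, Fin.cons_zero, Fin.cons_succ]
      exact hbN
    · rw [← Fin.succ_castSucc, Fin.cons_succ, Fin.cons_succ]
      exact hbmono i
  · intro l
    refine Fin.cases ?_ (fun l => ?_) l
    · left; rw [Fin.cons_zero]; linarith
    · rw [Fin.cons_succ]
      refine Fin.cases ?_ (fun l => ?_) l
      · left; rw [hb0]; exact hα
      · right; rw [hbs]; exact h.pos l
  · have p1 : ∀ x : ℚ, ∏ l, (x - b l) = (x - α) * ∏ i : Fin n, (x - a i.succ) := by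
      intro x; rw [Fin.prod_univ_succ, hb0]; simp only [hbs]
    have p2 : ∀ x : ℚ, ∏ l : Fin (n + 2), (x - (Fin.cons (-(N : ℚ)) b : Fin (n + 2) → ℚ) l) =
        (x - -N) * ∏ l, (x - b l) := by
      intro x; rw [Fin.prod_univ_succ]; simp only [Fin.cons_succ, Fin.cons_zero]
    rw [p2, p2, p1, p1, ← hu, ← hw]
    have h1 : α * (u * (1 - -1 / N) - w * (1 + -1 / N)) = u * (1 - -1 / N) + w * (1 + -1 / N) := by
      rw [hαd, al, div_mul_cancel₀ _ hne]
    have h2 : α * (u * (N + 1) - w * (N - 1)) = u * (N + 1) + w * (N - 1) := by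
      have h3 : α * (u * (N + 1) - w * (N - 1)) = N * (α * (u * (1 - -1 / N) - w * (1 + -1 / N))) := by
        field_simp
        ring
      rw [h3, h1]
      field_simp
      ring
    linear_combination -h2
  · rw [Fin.prod_univ_succ, Fin.cons_zero]
    simp only [Fin.cons_succ]
    rw [Fin.prod_univ_succ, hb0]
    simp only [hbs]
    rw [← hu]
    have h1 : 0 < 1 - -(N : ℚ) := by linarith
    have h2 : 0 < 1 - α := by linarith
    positivity
  · refine ⟨Fin.succ (Fin.succ ⟨0, by omega⟩), ?_⟩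
    rw [Fin.cons_succ, hbs]
    exact h.pos _
  · intro i j hij
    have hij' : dep i ((Fin.cons (-(N : ℝ)) (rc b) : Fin (n + 2) → ℝ), 0) =
        dep j ((Fin.cons (-(N : ℝ)) (rc b) : Fin (n + 2) → ℝ), 0) := by
      have := hij
      simp only [rc_cons] at this
      push_cast at this
      exact this
    have hfirst := dep_first (rc b) N R hR hNR
    have hsig : ((-1 : ℚ) : ℝ) / N = -(1 / N) := by push_cast; ring
    have hold : ∀ i : Fin n, dep i.succ ((Fin.cons (-(N : ℝ)) (rc b) : Fin (n + 2) → ℝ), 0) <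
        dep 0 ((Fin.cons (-(N : ℝ)) (rc b) : Fin (n + 2) → ℝ), 0) := by
      intro i
      rw [dep_cons i (rc b) N hN0]
      have h1 := hdeep i
      rw [hsig] at h1
      have h2 := mul_lt_mul_of_pos_left h1 hN0
      refine lt_of_lt_of_le h2 (le_trans (le_of_eq ?_) hfirst)
      ring
    revert hij'
    refine Fin.cases ?_ (fun i => ?_) i <;> refine Fin.cases ?_ (fun j => ?_) j
    · intro _; rfl
    · intro h1; exact absurd h1 (hold j).ne'
    · intro h1; exact absurd h1 (hold i).ne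
    · intro h1
      rw [dep_cons i (rc b) N hN0, dep_cons j (rc b) N hN0] at h1
      have h2 := mul_left_cancel₀ hN0.ne' h1
      by_contra hne'
      have h3 := hdist i j (fun h4 => hne' (by rw [h4]))
      rw [hsig] at h3
      exact h3 h2

theorem conf (n : ℕ) (hn : 1 ≤ n) : ∃ a : Fin (n + 1) → ℚ, Conf a := by
  induction n, hn using Nat.le_induction with
  | base =>
    refine ⟨![-2, 2], ?_, ?_, ?_, ?_, ?_⟩
    · rw [Fin.strictMono_iff_lt_succ]
      intro i
      fin_cases i
      simp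
    · simp
    · intro i
      fin_cases i
      simp
    · rw [Fin.prod_univ_two, Fin.prod_univ_two]
      simp
      norm_num
    · intro i j _
      exact Subsingleton.elim _ _
  | succ n hn ih =>
    obtain ⟨a, ha⟩ := ih
    exact right hn a ha

/-- the final configurations exist -/
theorem good2 (n : ℕ) (hn : 2 ≤ n) : ∃ a : Fin (n + 1) → ℚ, Good2 a := by
  rcases Nat.even_or_odd n with hev | hodd
  · obtain ⟨a, ha⟩ := conf n (by omega)
    refine ⟨a, ha.mono, ?_, ha.eq, ?_, ?_, ha.inj⟩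
    · intro l
      refine Fin.cases ?_ (fun l => ?_) l
      · left; exact ha.neg
      · right; exact ha.pos l
    · rw [Fin.prod_univ_succ]
      apply mul_pos
      · have := ha.neg; linarith
      · have h2 : ∀ i : Fin n, 1 - a i.succ = (-1) * (a i.succ - 1) := fun i => by ring
        rw [prod_congr rfl fun i _ => h2 i, prod_mul_distrib, prod_const, card_univ, Fintype.card_fin,
          hev.neg_one_pow, one_mul]
        exact prod_pos fun i _ => by have := ha.pos i; linarith
    · exact ⟨Fin.succ ⟨0, by omega⟩, ha.pos _⟩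
  · obtain ⟨m, rfl⟩ : ∃ m, n = m + 1 := ⟨n - 1, by omega⟩
    have hev : Even m := by
      rw [Nat.odd_add_one] at hodd
      exact Nat.not_odd_iff_even.1 hodd
    obtain ⟨a, ha⟩ := conf m (by
      rw [Nat.even_iff] at hev; omega)
    exact left (by rw [Nat.even_iff] at hev; omega) hev a ha

end Pool.Agent.Q22.CG
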