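import Pool.Agent.Q22.CG.Pair
import Pool.Agent.Q22.LE.Cls
import Pool.Agent.TH915.UC.PAP

set_option autoImplicit false

/-! Counting the fields. -/

namespace Pool.Agent.Q22.CG

open NumberField Finset Filter Topology
open Pool.Agent.W289.CG (Dat)

/-- few primes divide a given integer -/
lemma card_primes {d : ℤ} (hd : d ≠ 0) {X : ℝ} (hX : |(d : ℝ)| ≤ X) :
    ((d.natAbs.primeFactors.card : ℕ) : ℝ) ≤ Real.log X / Real.log 2 := by
  have hl2 : 0 < Real.log 2 := Real.log_pos (by norm_num)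
  have h1 : 2 ^ d.natAbs.primeFactors.card ≤ d.natAbs := by
    calc 2 ^ d.natAbs.primeFactors.card = ∏ _p ∈ d.natAbs.primeFactors, 2 := by rw [prod_const]
      _ ≤ ∏ p ∈ d.natAbs.primeFactors, p :=
          Finset.prod_le_prod' fun p hp => (Nat.prime_of_mem_primeFactors hp).two_le
      _ ≤ d.natAbs := Nat.le_of_dvd (Int.natAbs_pos.2 hd) (Nat.prod_primeFactors_dvd _)
  have h2 : ((d.natAbs : ℕ) : ℝ) ≤ X := by
    rw [Nat.cast_natAbs, Int.cast_abs]; exact hX
  have h3 : (2 : ℝ) ^ d.natAbs.primeFactors.card ≤ X := by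
    refine le_trans ?_ h2
    exact_mod_cast h1
  rw [le_div_iff₀ hl2]
  have h4 := Real.log_le_log (by positivity) h3
  rwa [Real.log_pow] at h4

/-- counting pairs of primes and fields -/
theorem classes_pairs (P1 P2 : Finset ℕ) (hP1 : ∀ ℓ ∈ P1, ℓ.Prime) (hP2 : ∀ q ∈ P2, q.Prime) (X : ℝ)
    (G : (K : Type) → [Field K] → [NumberField K] → Prop)
    (h : ∀ ℓ ∈ P1, ∀ q ∈ P2, ∃ (K : Type) (_ : Field K) (_ : NumberField K), G K ∧
      |(discr K : ℝ)| ≤ X ∧ (ℓ : ℤ) ∣ discr K ∧ (q : ℤ) ∣ discr K) :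
    ∃ (r : ℕ) (K : Fin r → Type) (_ : ∀ i, Field (K i)) (_ : ∀ i, NumberField (K i)),
      (P1.card : ℝ) * P2.card ≤ r * (Real.log X / Real.log 2) ^ 2 ∧
      (∀ i j, i ≠ j → IsEmpty (K i ≃+* K j)) ∧ ∀ i, G (K i) ∧ |(discr (K i) : ℝ)| ≤ X := by
  classical
  choose K hF hN hG hd hℓ hq using fun z : {z : ℕ × ℕ // z ∈ P1 ×ˢ P2} =>
    h z.1.1 (mem_product.1 z.2).1 z.1.2 (mem_product.1 z.2).2
  have hl2 : 0 < Real.log 2 := Real.log_pos (by norm_num)
  obtain ⟨r, f, h1, -, h3⟩ := Pool.Agent.Q22.LE.classes (univ : Finset {z : ℕ × ℕ // z ∈ P1 ×ˢ P2}) K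
    ((Real.log X / Real.log 2) ^ 2) (by
    intro i _ u _ hu
    have hdi : discr (K i) ≠ 0 := discr_ne_zero (K i)
    have hsub : u.image (fun z => z.1) ⊆ (discr (K i)).natAbs.primeFactors ×ˢ (discr (K i)).natAbs.primeFactors := by
      intro w hw
      rw [mem_image] at hw
      obtain ⟨z, hz, rfl⟩ := hw
      obtain ⟨e⟩ := hu z hz
      have e1 : discr (K z) = discr (K i) := discr_eq_discr_of_ringEquiv (K z) e
      rw [mem_product, Nat.mem_primeFactors, Nat.mem_primeFactors]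
      have m1 := hℓ z
      have m2 := hq z
      rw [e1] at m1 m2
      refine ⟨⟨hP1 _ (mem_product.1 z.2).1, ?_, Int.natAbs_ne_zero.2 hdi⟩,
        ⟨hP2 _ (mem_product.1 z.2).2, ?_, Int.natAbs_ne_zero.2 hdi⟩⟩
      · exact Int.natCast_dvd.1 m1
      · exact Int.natCast_dvd.1 m2
    have h4 := card_le_card hsub
    rw [card_image_of_injective _ Subtype.val_injective, card_product] at h4
    have h5 := card_primes hdi (hd i)
    have h6 : (0 : ℝ) ≤ (((discr (K i)).natAbs.primeFactors.card : ℕ) : ℝ) := Nat.cast_nonneg _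
    calc (u.card : ℝ) ≤ (((discr (K i)).natAbs.primeFactors.card : ℕ) : ℝ) *
          (((discr (K i)).natAbs.primeFactors.card : ℕ) : ℝ) := by exact_mod_cast h4
      _ ≤ (Real.log X / Real.log 2) * (Real.log X / Real.log 2) :=
          mul_le_mul h5 h5 h6 (h6.trans h5)
      _ = _ := by ring)
  refine ⟨r, fun i => K (f i), fun i => hF _, fun i => hN _, ?_, h3, fun i => ⟨hG _, hd _⟩⟩
  refine le_trans (le_of_eq ?_) h1
  rw [card_univ, Fintype.card_coe, card_product]
  push_cast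
  ring

/-- many pairs of primes -/
theorem many_pairs (M' a₁ p : ℕ) (hM' : 0 < M') (ha₁ : a₁.Coprime M') (hp : p.Prime) (c₀ : ℝ)
    (hc₀ : 0 < c₀) (hc₀' : c₀ ≤ 1 / 2) (Q₀ : ℕ) :
    ∃ c : ℝ, 0 < c ∧ ∃ T₀ : ℝ, ∀ T : ℝ, T₀ ≤ T → ∃ P1 P2 : Finset ℕ,
      (∀ ℓ ∈ P1, ℓ.Prime ∧ Q₀ < ℓ ∧ ℓ ≡ a₁ [MOD M'] ∧ (ℓ : ℝ) ≤ T) ∧
      (∀ q ∈ P2, q.Prime ∧ Q₀ < q ∧ q ≡ 1 [MOD p]) ∧
      (∀ ℓ ∈ P1, ∀ q ∈ P2, (q : ℝ) ≤ c₀ * ℓ) ∧
      c * T ^ 2 / Real.log T ^ 3 ≤ (P1.card : ℝ) * P2.card := by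
  classical
  have hφ1 : (0 : ℝ) < M'.totient := by exact_mod_cast Nat.totient_pos.2 hM'
  have hφ2 : (0 : ℝ) < p.totient := by exact_mod_cast Nat.totient_pos.2 hp.pos
  have hφ1' : (1 : ℝ) ≤ M'.totient := by exact_mod_cast Nat.totient_pos.2 hM'
  obtain ⟨δ, hδ⟩ : ∃ δ : ℝ, δ = 1 / (4 * M'.totient) := ⟨_, rfl⟩
  have hδ0 : 0 < δ := by rw [hδ]; positivity
  have hδ1 : δ ≤ 1 := by
    rw [hδ, div_le_one (by positivity)]; linarith
  have e1 := Pool.Agent.TH915.UC.primes_ap_lower M' a₁ hM' ha₁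
  have e2 := Pool.Agent.TH915.UC.primes_ap_lower p 1 hp.pos (Nat.coprime_one_left p)
  have htend : Tendsto (fun T : ℝ => c₀ * δ * (T / Real.log T)) atTop atTop := by
    apply Tendsto.const_mul_atTop (by positivity)
    have h1 := Real.isLittleO_log_id_atTop
    have h2 : Tendsto (fun T : ℝ => Real.log T / T) atTop (𝓝 0) := by
      have := h1.tendsto_div_nhds_zero
      simpa using this
    have h3 : Tendsto (fun T : ℝ => Real.log T / T) atTop (𝓝[>] 0) := by
      rw [tendsto_nhdsWithin_iff]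
      refine ⟨h2, ?_⟩
      filter_upwards [eventually_gt_atTop (1 : ℝ)] with T hT
      exact div_pos (Real.log_pos hT) (by linarith)
    refine (h3.inv_tendsto_nhdsGT_zero).congr fun T => ?_
    rw [Pi.inv_apply, inv_div]
  have e3 := htend.eventually e2
  have e4 := htend.eventually_ge_atTop ((Q₀ : ℝ) + 3)
  have e5 : ∀ᶠ T : ℝ in atTop, ((Q₀ : ℝ) + 1) * (4 * p.totient) ≤ c₀ * δ * (T / Real.log T) / Real.log T := by
    have h1 := (isLittleO_log_rpow_rpow_atTop (2 : ℝ) (show (0 : ℝ) < 1 by norm_num)).bound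
      (show (0 : ℝ) < c₀ * δ / (((Q₀ : ℝ) + 1) * (4 * p.totient)) by positivity)
    filter_upwards [h1, eventually_gt_atTop (1 : ℝ)] with T h2 hT
    have hl : 0 < Real.log T := Real.log_pos hT
    have h3 : Real.log T ^ (2 : ℝ) = Real.log T ^ 2 := by
      rw [← Real.rpow_natCast]; norm_num
    rw [Real.rpow_one, h3, Real.norm_eq_abs, Real.norm_eq_abs, abs_of_pos (show (0 : ℝ) < T by linarith),
      abs_of_nonneg (by positivity)] at h2
    rw [div_mul_eq_mul_div, le_div_iff₀ (by positivity)] at h2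
    have h4 : c₀ * δ * (T / Real.log T) / Real.log T = c₀ * δ * T / Real.log T ^ 2 := by
      field_simp
    rw [h4, le_div_iff₀ (by positivity)]
    linarith
  have e6 : ∀ᶠ T : ℝ in atTop, 8 * (M'.totient : ℝ) * Real.log T ≤ T := by
    have h1 := Real.isLittleO_log_id_atTop.bound (show (0 : ℝ) < 1 / (8 * (M'.totient : ℝ)) by positivity)
    filter_upwards [h1, eventually_gt_atTop (1 : ℝ)] with T h2 hT
    have hl : 0 < Real.log T := Real.log_pos hT
    rw [id, Real.norm_eq_abs, Real.norm_eq_abs, abs_of_pos hl, abs_of_pos (by linarith),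
      div_mul_eq_mul_div, le_div_iff₀ (by positivity), one_mul] at h2
    linarith
  obtain ⟨T₀, hT₀⟩ := eventually_atTop.1 (e1.and (e3.and (e4.and (e5.and (e6.and (eventually_ge_atTop (3 : ℝ)))))))
  refine ⟨(1 / (8 * M'.totient)) * (c₀ * δ / (4 * p.totient)), by positivity, T₀, ?_⟩
  intro T hT
  obtain ⟨h1, h3, h4, h5, h12, hT3⟩ := hT₀ T hT
  have hl : 0 < Real.log T := Real.log_pos (by linarith)
  have hl1 : 1 ≤ Real.log T := by
    rw [Real.le_log_iff_exp_le (by linarith)]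
    have := Real.exp_one_lt_d9
    linarith
  obtain ⟨U, hU⟩ : ∃ U : ℝ, U = c₀ * δ * (T / Real.log T) := ⟨_, rfl⟩
  rw [← hU] at h3 h4 h5
  have hQ0 : (0 : ℝ) ≤ Q₀ := Nat.cast_nonneg _
  have hU3 : 3 ≤ U := by linarith
  have hUT : U ≤ T := by
    rw [hU]
    have h6 : T / Real.log T ≤ T := div_le_self (by linarith) hl1
    have h7 : c₀ * δ ≤ 1 := by nlinarith
    have h8 : 0 ≤ T / Real.log T := by positivity
    nlinarith
  set A := (Icc 1 ⌊T⌋₊).filter (fun ℓ => ℓ.Prime ∧ ℓ ≡ a₁ [MOD M']) with hA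
  set A' := (range ⌈δ * T / Real.log T⌉₊) with hA'
  set B := (Icc 1 ⌊U⌋₊).filter (fun q => q.Prime ∧ q ≡ 1 [MOD p]) with hB
  refine ⟨A \ A', B \ range (Q₀ + 1), ?_, ?_, ?_, ?_⟩
  · intro ℓ hℓ
    rw [Finset.mem_sdiff, hA, hA', mem_filter, mem_Icc, mem_range, not_lt, Nat.ceil_le] at hℓ
    obtain ⟨⟨⟨_, h6⟩, h7, h8⟩, h9⟩ := hℓ
    refine ⟨h7, ?_, h8, ?_⟩
    · have h10 : U ≤ δ * T / Real.log T := by
        rw [hU, mul_assoc, mul_div_assoc]
        have : 0 ≤ δ * (T / Real.log T) := by positivity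
        nlinarith
      have h11 : (Q₀ : ℝ) < ℓ := by linarith
      exact_mod_cast h11
    · exact (Nat.le_floor_iff (by linarith)).1 h6
  · intro q hq
    rw [Finset.mem_sdiff, hB, mem_filter, mem_range, not_lt] at hq
    exact ⟨hq.1.2.1, by omega, hq.1.2.2⟩
  · intro ℓ hℓ q hq
    rw [Finset.mem_sdiff, hA', mem_range, not_lt, Nat.ceil_le] at hℓ
    rw [Finset.mem_sdiff, hB, mem_filter, mem_Icc] at hq
    have h6 : (q : ℝ) ≤ U := (Nat.le_floor_iff (by linarith)).1 hq.1.1.2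
    have h7 : U = c₀ * (δ * T / Real.log T) := by rw [hU]; ring
    rw [h7] at h6
    exact h6.trans (mul_le_mul_of_nonneg_left hℓ.2 hc₀.le)
  · -- the cardinalities
    have hlow : ∀ (S R : Finset ℕ), (S.card : ℝ) - R.card ≤ ((S \ R).card : ℝ) := by
      intro S R
      have := Finset.le_card_sdiff R S
      have h6 : S.card ≤ (S \ R).card + R.card := by omega
      have h7 : (S.card : ℝ) ≤ ((S \ R).card : ℝ) + R.card := by exact_mod_cast h6
      linarith
    have c1 : T / (4 * M'.totient * Real.log T) - 1 ≤ ((A \ A').card : ℝ) := by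
      have h6 := hlow A A'
      have h7 : (A'.card : ℝ) ≤ δ * T / Real.log T + 1 := by
        rw [hA', card_range]
        exact (Nat.ceil_lt_add_one (by positivity)).le
      have h8 : T / (2 * M'.totient * Real.log T) = T / (4 * M'.totient * Real.log T) + δ * T / Real.log T := by
        rw [hδ]; field_simp; ring
      rw [h8] at h1
      linarith
    have c3 : T / (8 * M'.totient * Real.log T) ≤ ((A \ A').card : ℝ) := by
      have h6 : 1 ≤ T / (8 * M'.totient * Real.log T) := by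
        rw [le_div_iff₀ (by positivity)]; linarith
      have h7 : T / (4 * M'.totient * Real.log T) = 2 * (T / (8 * M'.totient * Real.log T)) := by
        field_simp; ring
      rw [h7] at c1
      linarith
    have c2 : U / (4 * p.totient * Real.log T) ≤ ((B \ range (Q₀ + 1)).card : ℝ) := by
      have h6 := hlow B (range (Q₀ + 1))
      rw [card_range] at h6
      have hlU : 0 < Real.log U := Real.log_pos (by linarith)
      have h7 : U / (2 * p.totient * Real.log T) ≤ U / (2 * p.totient * Real.log U) := by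
        apply div_le_div_of_nonneg_left (by linarith) (by positivity)
        exact mul_le_mul_of_nonneg_left (Real.log_le_log (by linarith) hUT) (by positivity)
      have h8 : U / (2 * p.totient * Real.log T) = 2 * (U / (4 * p.totient * Real.log T)) := by
        field_simp; ring
      have h9 : (Q₀ : ℝ) + 1 ≤ U / (4 * p.totient * Real.log T) := by
        rw [le_div_iff₀ (by positivity)]
        rw [le_div_iff₀ hl] at h5
        linarith
      push_cast at h6
      linarith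
    have h6 : (1 / (8 * M'.totient)) * (c₀ * δ / (4 * p.totient)) * T ^ 2 / Real.log T ^ 3 =
        (T / (8 * M'.totient * Real.log T)) * (U / (4 * p.totient * Real.log T)) := by
      rw [hU]; field_simp
    rw [h6]
    have hT0 : 0 < T := by linarith
    exact mul_le_mul c3 c2 (by positivity) (Nat.cast_nonneg _)

end Pool.Agent.Q22.CG
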