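import Pool.Agent.Q22.CG.Sgn2

set_option autoImplicit false

/-! The depths of the gaps. -/

namespace Pool.Agent.Q22.CG

open Finset Filter Topology
open scoped Pointwise

/-- the point with parameter `θ` in the gap `i` -/
noncomputable def pt {n : ℕ} (i : Fin n) (a : Fin (n + 1) → ℝ) (θ : ℝ) : ℝ :=
  a i.castSucc + θ * (a i.succ - a i.castSucc)

/-- the product of the distances, with a further root `1 / τ` -/
noncomputable def gf {n : ℕ} (i : Fin n) (z : (Fin (n + 1) → ℝ) × ℝ) (θ : ℝ) : ℝ :=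
  absP z.1 (pt i z.1 θ) * |1 - z.2 * pt i z.1 θ|

/-- the depth -/
noncomputable def dep {n : ℕ} (i : Fin n) (z : (Fin (n + 1) → ℝ) × ℝ) : ℝ :=
  sSup (gf i z '' Set.Icc 0 1)

lemma continuous_gf {n : ℕ} (i : Fin n) :
    Continuous fun p : ((Fin (n + 1) → ℝ) × ℝ) × ℝ => gf i p.1 p.2 := by
  unfold gf absP pt
  fun_prop

lemma continuous_dep {n : ℕ} (i : Fin n) : Continuous (dep i) :=
  isCompact_Icc.continuous_sSup (continuous_gf i)

lemma compact_img {n : ℕ} (i : Fin n) (z : (Fin (n + 1) → ℝ) × ℝ) :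
    IsCompact (gf i z '' Set.Icc 0 1) :=
  isCompact_Icc.image ((continuous_gf i).comp (Continuous.prodMk_right z))

lemma le_dep {n : ℕ} (i : Fin n) (z : (Fin (n + 1) → ℝ) × ℝ) (θ : ℝ) (h0 : 0 ≤ θ) (h1 : θ ≤ 1) :
    gf i z θ ≤ dep i z :=
  le_csSup (compact_img i z).bddAbove ⟨θ, ⟨h0, h1⟩, rfl⟩

lemma dep_mem {n : ℕ} (i : Fin n) (z : (Fin (n + 1) → ℝ) × ℝ) :
    ∃ θ : ℝ, 0 ≤ θ ∧ θ ≤ 1 ∧ gf i z θ = dep i z := by
  obtain ⟨θ, ⟨h0, h1⟩, h2⟩ := (compact_img i z).sSup_mem ⟨_, 0, ⟨le_rfl, zero_le_one⟩, rfl⟩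
  exact ⟨θ, h0, h1, h2⟩

lemma gf_zero {n : ℕ} (i : Fin n) (a : Fin (n + 1) → ℝ) (θ : ℝ) : gf i (a, 0) θ = absP a (pt i a θ) := by
  simp [gf]

lemma dep1 {n : ℕ} (a : Fin (n + 1) → ℝ) (ha : StrictMono a) (i : Fin n) (x : ℝ)
    (h1 : a i.castSucc ≤ x) (h2 : x ≤ a i.succ) : absP a x ≤ dep i (a, 0) := by
  have hlt : a i.castSucc < a i.succ := ha Fin.castSucc_lt_succ
  have h3 := le_dep i (a, 0) ((x - a i.castSucc) / (a i.succ - a i.castSucc))
    (div_nonneg (by linarith) (by linarith)) (by rw [div_le_one (by linarith)]; linarith)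
  rw [gf_zero] at h3
  have h4 : pt i a ((x - a i.castSucc) / (a i.succ - a i.castSucc)) = x := by
    have : a i.succ - a i.castSucc ≠ 0 := by intro h; linarith
    unfold pt
    field_simp
    ring
  rwa [h4] at h3

lemma dep2 {n : ℕ} (a : Fin (n + 1) → ℝ) (ha : StrictMono a) (i : Fin n) :
    ∃ x, a i.castSucc ≤ x ∧ x ≤ a i.succ ∧ absP a x = dep i (a, 0) := by
  have hlt : a i.castSucc < a i.succ := ha Fin.castSucc_lt_succ
  obtain ⟨θ, h0, h1, h2⟩ := dep_mem i (a, 0)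
  rw [gf_zero] at h2
  refine ⟨pt i a θ, ?_, ?_, h2⟩
  · unfold pt; nlinarith
  · unfold pt; nlinarith

lemma sSup_mul (N : ℝ) (hN : 0 ≤ N) (g : ℝ → ℝ) :
    sSup ((fun θ => N * g θ) '' Set.Icc 0 1) = N * sSup (g '' Set.Icc 0 1) := by
  have h1 : (fun θ => N * g θ) '' Set.Icc (0 : ℝ) 1 = N • (g '' Set.Icc (0 : ℝ) 1) := by
    rw [← Set.image_smul, Set.image_image]
    rfl
  rw [h1, Real.sSup_smul_of_nonneg hN, smul_eq_mul]

lemma dep_snoc {n : ℕ} (i : Fin n) (a : Fin (n + 1) → ℝ) (N : ℝ) (hN : 0 < N) :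
    dep i.castSucc ((Fin.snoc a N : Fin (n + 2) → ℝ), 0) = N * dep i (a, 1 / N) := by
  unfold dep
  rw [← sSup_mul N hN.le]
  congr 2
  funext θ
  rw [gf_zero]
  have h1 : pt i.castSucc (Fin.snoc a N : Fin (n + 2) → ℝ) θ = pt i a θ := by
    unfold pt
    rw [Fin.succ_castSucc, Fin.snoc_castSucc, Fin.snoc_castSucc]
  rw [h1, gf, absP, Fin.prod_univ_castSucc, Fin.snoc_last]
  simp only [Fin.snoc_castSucc]
  have h2 : |pt i a θ - N| = N * |1 - 1 / N * pt i a θ| := by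
    rw [← abs_of_pos hN, ← abs_mul, abs_of_pos hN, ← abs_neg]
    congr 1
    field_simp
    ring
  rw [h2, absP]
  ring

lemma dep_cons {n : ℕ} (i : Fin n) (a : Fin (n + 1) → ℝ) (N : ℝ) (hN : 0 < N) :
    dep i.succ ((Fin.cons (-N) a : Fin (n + 2) → ℝ), 0) = N * dep i (a, -(1 / N)) := by
  unfold dep
  rw [← sSup_mul N hN.le]
  congr 2
  funext θ
  rw [gf_zero]
  have h1 : pt i.succ (Fin.cons (-N) a : Fin (n + 2) → ℝ) θ = pt i a θ := by
    unfold pt
    rw [← Fin.succ_castSucc, Fin.cons_succ, Fin.cons_succ]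
  rw [h1, gf, absP, Fin.prod_univ_succ, Fin.cons_zero]
  simp only [Fin.cons_succ]
  have h2 : |pt i a θ - -N| = N * |1 - -(1 / N) * pt i a θ| := by
    rw [← abs_of_pos hN, ← abs_mul, abs_of_pos hN]
    congr 1
    field_simp
    ring
  rw [h2, absP]
  ring

lemma dep_smul {n : ℕ} (i : Fin n) (a : Fin (n + 1) → ℝ) (q : ℝ) (hq : 0 < q) :
    dep i ((fun l => q * a l), 0) = q ^ (n + 1) * dep i (a, 0) := by
  unfold dep
  rw [← sSup_mul _ (by positivity)]
  congr 2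
  funext θ
  rw [gf_zero, gf_zero]
  have h1 : pt i (fun l => q * a l) θ = q * pt i a θ := by unfold pt; ring
  rw [h1, absP, absP]
  have h2 : ∀ l, |q * pt i a θ - q * a l| = q * |pt i a θ - a l| := by
    intro l
    rw [← mul_sub, abs_mul, abs_of_pos hq]
  rw [prod_congr rfl fun l _ => h2 l, prod_mul_distrib, prod_const, card_univ, Fintype.card_fin]

/-- the new gap on the right is deep -/
lemma dep_last {n : ℕ} (a : Fin (n + 1) → ℝ) (N R : ℝ) (hR : ∀ l, |a l| ≤ R) (hN : 2 * R + 2 ≤ N) :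
    N * (N / 2 - R) / 2 ≤ dep (Fin.last n) ((Fin.snoc a N : Fin (n + 2) → ℝ), 0) := by
  have hR0 : 0 ≤ R := (abs_nonneg _).trans (hR 0)
  have hlast := abs_le.1 (hR (Fin.last n))
  have e1 : (Fin.snoc a N : Fin (n + 2) → ℝ) (Fin.last n).castSucc = a (Fin.last n) := Fin.snoc_castSucc ..
  have e2 : (Fin.snoc a N : Fin (n + 2) → ℝ) (Fin.last n).succ = N := by
    rw [Fin.succ_last]; exact Fin.snoc_last ..
  have hd : 0 < N - a (Fin.last n) := by linarith
  have h3 := le_dep (Fin.last n) ((Fin.snoc a N : Fin (n + 2) → ℝ), 0) ((N / 2 - a (Fin.last n)) / (N - a (Fin.last n)))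
    (div_nonneg (by linarith) hd.le) (by rw [div_le_one hd]; linarith)
  refine le_trans ?_ h3
  rw [gf_zero]
  have h4 : pt (Fin.last n) (Fin.snoc a N : Fin (n + 2) → ℝ) ((N / 2 - a (Fin.last n)) / (N - a (Fin.last n))) = N / 2 := by
    unfold pt
    rw [e1, e2]
    field_simp
    ring
  rw [h4, absP, Fin.prod_univ_castSucc, Fin.snoc_last]
  simp only [Fin.snoc_castSucc]
  have h5 : N / 2 - R ≤ ∏ l : Fin (n + 1), |N / 2 - a l| := by
    calc N / 2 - R ≤ (N / 2 - R) ^ (n + 1) := le_self_pow₀ (by linarith) (by omega)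
      _ = ∏ _l : Fin (n + 1), (N / 2 - R) := by rw [prod_const, card_univ, Fintype.card_fin]
      _ ≤ _ := by
          apply prod_le_prod (fun l _ => by linarith)
          intro l _
          have := abs_le.1 (hR l)
          rw [abs_of_pos (by linarith)]
          linarith
  have h6 : |N / 2 - N| = N / 2 := by rw [abs_of_neg (by linarith)]; ring
  rw [h6]
  calc N * (N / 2 - R) / 2 = (N / 2 - R) * (N / 2) := by ring
    _ ≤ _ := mul_le_mul_of_nonneg_right h5 (by linarith)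

/-- the new gap on the left is deep -/
lemma dep_first {n : ℕ} (a : Fin (n + 1) → ℝ) (N R : ℝ) (hR : ∀ l, |a l| ≤ R) (hN : 2 * R + 2 ≤ N) :
    N * (N / 2 - R) / 2 ≤ dep 0 ((Fin.cons (-N) a : Fin (n + 2) → ℝ), 0) := by
  have hR0 : 0 ≤ R := (abs_nonneg _).trans (hR 0)
  have hfirst := abs_le.1 (hR 0)
  have e1 : (Fin.cons (-N) a : Fin (n + 2) → ℝ) (0 : Fin (n + 1)).castSucc = -N := by
    rw [Fin.castSucc_zero]; exact Fin.cons_zero ..
  have e2 : (Fin.cons (-N) a : Fin (n + 2) → ℝ) (0 : Fin (n + 1)).succ = a 0 := Fin.cons_succ ..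
  have hd : 0 < a 0 + N := by linarith
  have h3 := le_dep 0 ((Fin.cons (-N) a : Fin (n + 2) → ℝ), 0) ((N / 2) / (a 0 + N))
    (div_nonneg (by linarith) hd.le) (by rw [div_le_one hd]; linarith)
  refine le_trans ?_ h3
  rw [gf_zero]
  have h4 : pt 0 (Fin.cons (-N) a : Fin (n + 2) → ℝ) ((N / 2) / (a 0 + N)) = -(N / 2) := by
    unfold pt
    rw [e1, e2]
    field_simp
    ring
  rw [h4, absP, Fin.prod_univ_succ, Fin.cons_zero]
  simp only [Fin.cons_succ]
  have h5 : N / 2 - R ≤ ∏ l : Fin (n + 1), |-(N / 2) - a l| := by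
    calc N / 2 - R ≤ (N / 2 - R) ^ (n + 1) := le_self_pow₀ (by linarith) (by omega)
      _ = ∏ _l : Fin (n + 1), (N / 2 - R) := by rw [prod_const, card_univ, Fintype.card_fin]
      _ ≤ _ := by
          apply prod_le_prod (fun l _ => by linarith)
          intro l _
          have := abs_le.1 (hR l)
          rw [abs_of_neg (by linarith)]
          linarith
  have h6 : |-(N / 2) - -N| = N / 2 := by rw [abs_of_pos (by linarith)]; ring
  rw [h6]
  calc N * (N / 2 - R) / 2 = (N / 2) * (N / 2 - R) := by ring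
    _ ≤ _ := mul_le_mul_of_nonneg_left h5 (by linarith)

end Pool.Agent.Q22.CG
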