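import Mathlib
import Pool.Agent.W231.R.Disc

set_option autoImplicit false

/-! The discriminant of `ℚ(θ)`, `L ∏ (θ - a_i) + S = 0`. -/

namespace Pool.Agent.Q22.CG

open NumberField Module Finset Polynomial

/-- the elements `L ∏_{j ∈ J} (θ - a_j)` are integral -/
lemma integral_part {n : ℕ} (a : Fin n → ℤ) (L S : ℤ) {K : Type} [Field K] [NumberField K] (θ : K)
    (hθ : (L : K) * ∏ i, (θ - (a i : K)) + (S : K) = 0) (J : Finset (Fin n)) :
    IsIntegral ℤ ((L : K) * ∏ i ∈ J, (θ - (a i : K))) := by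
  have hmem : ((L : K) * ∏ i ∈ J, (θ - (a i : K))) ∈ (algebraMap (𝓞 K) K).range := by
    apply IsDedekindDomain.HeightOneSpectrum.mem_integers_of_valuation_le_one
    intro v
    have hint : ∀ z : ℤ, v.valuation K (z : K) ≤ 1 := by
      intro z
      have h1 := v.valuation_le_one (K := K) ((z : ℤ) : 𝓞 K)
      have e : (((z : ℤ) : 𝓞 K) : K) = (z : K) := map_intCast (algebraMap (𝓞 K) K) z
      rw [← e]
      exact h1
    by_cases hv : v.valuation K θ ≤ 1
    · have h1 : ∀ i, v.valuation K (θ - (a i : K)) ≤ 1 := fun i =>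
        (Valuation.map_sub _ _ _).trans (max_le hv (hint _))
      rw [map_mul, map_prod]
      exact mul_le_one' (hint L) (Finset.prod_le_one' fun i _ => h1 i)
    · rw [not_le] at hv
      have h1 : ∀ i, 1 ≤ v.valuation K (θ - (a i : K)) := by
        intro i
        by_contra hcon
        rw [not_le] at hcon
        have h2 : v.valuation K θ ≤ max (v.valuation K (θ - (a i : K))) (v.valuation K (a i : K)) := by
          have h3 := (v.valuation K).map_add (θ - (a i : K)) (a i : K)
          rwa [sub_add_cancel] at h3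
        have h3 := h2.trans (max_le hcon.le (hint _))
        exact absurd hv (not_lt.2 h3)
      have h2 : ∏ i ∈ J, v.valuation K (θ - (a i : K)) ≤ ∏ i, v.valuation K (θ - (a i : K)) :=
        Finset.prod_le_prod_of_subset_of_one_le' (subset_univ _) fun i _ _ => h1 i
      have h3 : v.valuation K (L : K) * ∏ i, v.valuation K (θ - (a i : K)) ≤ 1 := by
        have h4 : (L : K) * ∏ i, (θ - (a i : K)) = ((-S : ℤ) : K) := by
          push_cast
          linear_combination hθ
        have h5 := congrArg (v.valuation K) h4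
        rw [map_mul, map_prod] at h5
        rw [h5]
        exact hint _
      rw [map_mul, map_prod]
      exact (mul_le_mul_right h2 _).trans h3
  obtain ⟨z, hz⟩ := hmem
  rw [← hz]
  exact z.isIntegral_coe

/-- the Newton polynomials -/
noncomputable def nwt {n : ℕ} (a : Fin n → ℤ) (L : ℤ) (i : ℕ) : ℚ[X] :=
  if i = 0 then 1 else if i < n then C (L : ℚ) * ∏ j ∈ univ.filter (fun j : Fin n => (j : ℕ) < i), (X - C (a j : ℚ))
  else X ^ i

lemma card_lt {n i : ℕ} (h : i < n) : (univ.filter (fun j : Fin n => (j : ℕ) < i)).card = i := by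
  have h1 : (univ.filter (fun j : Fin n => (j : ℕ) < i)).card = (range i).card := by
    refine Finset.card_bij (fun j _ => (j : ℕ)) ?_ ?_ ?_
    · intro j hj
      exact mem_range.2 (mem_filter.1 hj).2
    · intro j _ k _ hjk
      exact Fin.ext hjk
    · intro j hj
      rw [mem_range] at hj
      exact ⟨⟨j, by omega⟩, mem_filter.2 ⟨mem_univ _, hj⟩, rfl⟩
  rw [h1, card_range]

lemma nwt_degree {n : ℕ} (a : Fin n → ℤ) (L : ℤ) (hL : L ≠ 0) (i : ℕ) : (nwt a L i).degree = i := by
  unfold nwt
  split_ifs with h1 h2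
  · subst h1; simp
  · have hL' : (L : ℚ) ≠ 0 := by exact_mod_cast hL
    rw [degree_C_mul hL', degree_prod, sum_congr rfl fun j _ => degree_X_sub_C _, sum_const, card_lt h2]
    simp
  · rw [degree_X_pow]

theorem disc_le {n : ℕ} (hn : 1 ≤ n) (a : Fin n → ℤ) (L S : ℤ) (hL : 1 ≤ L) {K : Type} [Field K]
    [NumberField K] (θ : K) (hθ : (L : K) * ∏ i, (θ - (a i : K)) + (S : K) = 0)
    (hfr : finrank ℚ K = n) (hgen : IntermediateField.adjoin ℚ {θ} = ⊤) (B : ℝ) (hB1 : 1 ≤ B)
    (hB : ∀ (σ : K →+* ℂ) (i : Fin n), ‖σ θ - (a i : ℂ)‖ ≤ B) :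
    |(discr K : ℝ)| ≤ ((n.factorial : ℝ) * ((L : ℝ) * B ^ n) ^ (n - 1)) ^ 2 := by
  classical
  obtain ⟨m, rfl⟩ : ∃ m, n = m + 1 := ⟨n - 1, by omega⟩
  have hL0 : L ≠ 0 := by omega
  have hL1 : (1 : ℝ) ≤ L := by exact_mod_cast hL
  let Sq : Polynomial.Sequence ℚ := ⟨nwt a L, nwt_degree a L hL0⟩
  have hlin := Sq.linearIndependent
  have hmin : (minpoly ℚ θ).natDegree = m + 1 := by
    rw [← hfr]
    exact (Field.primitive_element_iff_minpoly_natDegree_eq ℚ θ).1 hgen
  have hli : LinearIndependent ℚ (fun i : Fin (m + 1) => aeval θ (nwt a L i)) := by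
    rw [Fintype.linearIndependent_iff]
    intro g hg
    have h1 : aeval θ (∑ i : Fin (m + 1), g i • nwt a L i) = 0 := by
      rw [map_sum, ← hg]
      refine sum_congr rfl fun i _ => ?_
      rw [map_smul]
    have h2 : (∑ i : Fin (m + 1), g i • nwt a L i) = 0 := by
      by_contra h3
      have h4 := minpoly.degree_le_of_ne_zero ℚ θ h3 h1
      have h5 : (∑ i : Fin (m + 1), g i • nwt a L i).degree < ((m + 1 : ℕ) : WithBot ℕ) := by
        refine lt_of_le_of_lt (degree_sum_le _ _) ?_
        rw [Finset.sup_lt_iff (WithBot.bot_lt_coe _)]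
        intro i _
        refine lt_of_le_of_lt (degree_smul_le _ _) ?_
        rw [nwt_degree a L hL0]
        exact_mod_cast i.2
      rw [degree_eq_natDegree (minpoly.ne_zero_of_finite ℚ θ), hmin] at h4
      exact absurd (h4.trans_lt h5) (lt_irrefl _)
    have h3 : LinearIndependent ℚ (fun i : Fin (m + 1) => nwt a L i) :=
      hlin.comp (fun i : Fin (m + 1) => (i : ℕ)) Fin.val_injective
    rw [Fintype.linearIndependent_iff] at h3
    exact h3 g h2
  have hcard : Fintype.card (Fin (m + 1)) = finrank ℚ K := by rw [Fintype.card_fin, hfr]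
  set b := basisOfLinearIndependentOfCardEqFinrank hli hcard with hb
  have hbi : ∀ i, b i = aeval θ (nwt a L i) := by
    intro i
    rw [hb, coe_basisOfLinearIndependentOfCardEqFinrank]
  have hval : ∀ i : Fin (m + 1), (i : ℕ) ≠ 0 → b i =
      (L : K) * ∏ j ∈ univ.filter (fun j : Fin (m + 1) => (j : ℕ) < i), (θ - (a j : K)) := by
    intro i hi
    rw [hbi, nwt, if_neg hi, if_pos i.2, map_mul, map_prod, aeval_C]
    simp
  have hval0 : ∀ i : Fin (m + 1), (i : ℕ) = 0 → b i = 1 := by
    intro i hi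
    rw [hbi, nwt, if_pos hi, map_one]
  have h1 := Pool.Agent.W231.R.abs_discr_le b (fun i => by
    by_cases hi : (i : ℕ) = 0
    · rw [hval0 i hi]; exact isIntegral_one
    · rw [hval i hi]; exact integral_part a L S θ hθ _) (fun i => if (i : ℕ) = 0 then 1 else (L : ℝ) * B ^ (m + 1)) (by
    intro i σ
    by_cases hi : (i : ℕ) = 0
    · rw [hval0 i hi, if_pos hi, map_one, norm_one]
    · rw [hval i hi, if_neg hi, map_mul, map_prod, norm_mul, norm_prod, map_intCast]
      have e1 : ‖((L : ℤ) : ℂ)‖ = L := by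
        rw [Complex.norm_intCast, abs_of_nonneg (by linarith)]
      rw [e1]
      apply mul_le_mul_of_nonneg_left _ (by linarith)
      calc ∏ j ∈ univ.filter (fun j : Fin (m + 1) => (j : ℕ) < i), ‖σ (θ - (a j : K))‖
          ≤ ∏ _j ∈ univ.filter (fun j : Fin (m + 1) => (j : ℕ) < i), B := by
            refine prod_le_prod (fun j _ => norm_nonneg _) fun j _ => ?_
            rw [map_sub, map_intCast]
            exact hB σ j
        _ = B ^ (univ.filter (fun j : Fin (m + 1) => (j : ℕ) < i)).card := by rw [prod_const]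
        _ ≤ B ^ (m + 1) := by
            apply pow_le_pow_right₀ hB1
            rw [card_lt i.2]
            exact i.2.le)
  refine h1.trans (le_of_eq ?_)
  rw [Fintype.card_fin, Fin.prod_univ_succ]
  simp

end Pool.Agent.Q22.CG
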