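import Pool.Agent.W289.CG.Fin
import Pool.Agent.Q22.CG.Disc

set_option autoImplicit false

/-! The fields of the starting library `W289.CG`, for all parameters `s`, `t`. -/

namespace Pool.Agent.Q22.CG

open Polynomial NumberField nonZeroDivisors
open Pool.Agent Pool.Agent.W289.CG

/-- the properties of the field with parameters `s`, `t` -/
theorem field_st {n k : ℕ} (hn : 2 ≤ n) (hk : 1 ≤ k) (D : Dat n k) (m N q₀ q₁ : ℕ) (hm : 2 ≤ m)
    (s t : ℤ) (hG : Good D m N q₀ q₁ s t) (hs0 : 0 < s) (hslt : s < t) (hst : IsCoprime s t) :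
    ∃ (K : Type) (_ : Field K) (_ : NumberField K) (θ : K) (L : ℤ), 0 < L ∧ L * D.c = t ^ m - s ^ m ∧
      (L : K) * ∏ i, (θ - (D.a i : K)) + ((s ^ m : ℤ) : K) = 0 ∧
      IntermediateField.adjoin ℚ {θ} = ⊤ ∧ Module.finrank ℚ K = n ∧
      (∀ q : ℕ, q.Prime → (q : ℤ) ∣ L → ¬ (q : ℤ) ^ 2 ∣ L → ¬ (q : ℤ) ∣ s → (q : ℤ) ∣ discr K) ∧
      InfinitePlace.nrRealPlaces K =
        {X : ℝ | ∏ i, (X - (D.a i : ℝ)) = - ((s : ℝ) ^ m * D.c / ((t : ℝ) ^ m - (s : ℝ) ^ m))}.ncard ∧
      ∀ R, R + Units.rank K ≤ n + k - 1 →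
        ∃ f : Multiplicative (Fin R → ZMod m) →* ClassGroup (𝓞 K), Function.Injective f := by
  obtain ⟨L, hL0, hLc, hcopL, hqL, hqL2, hqs, hsb, htb⟩ := good_arith hG hm hs0 hslt hst
  have hirr := W505.CG.irr n D.a L (s ^ m) q₀ (by omega) hG.hq₀ hqL hqL2 hqs hcopL
  obtain ⟨K, hK1, hK2, θ, hfr, hθ, hgen⟩ := exists_field _ hirr
  rw [natDegree_F (by omega) D.a L _ hL0.ne'] at hfr
  have hθ' := hθ
  rw [eval_F] at hθ'
  have hF : Fld D m s t L K θ := ⟨hLc, by push_cast at hθ'; exact hθ', hgen⟩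
  have htn : t ≠ 0 := (hs0.trans hslt).ne'
  have hpt := ne_pt hF hs0.ne' htn
  refine ⟨K, hK1, hK2, θ, L, hL0, hLc, hθ', hgen, hfr, ?_, ?_, ?_⟩
  · intro q hq h1 h2 h3
    refine W505.CG.disc K n D.a L (s ^ m) q θ hn hfr hq h1 h2 ?_ hθ' hgen
    intro h
    exact h3 ((Nat.prime_iff_prime_int.1 hq).dvd_of_dvd_pow h)
  · rw [W240.CG.pl K _ θ hirr hθ hgen]
    congr 1
    ext X
    simp only [Set.mem_setOf_eq]
    rw [eval_F]
    have hL0' : (L : ℝ) ≠ 0 := by exact_mod_cast hL0.ne'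
    have hc0 : (D.c : ℝ) ≠ 0 := by exact_mod_cast D.hc.ne'
    have h1 : (t : ℝ) ^ m - (s : ℝ) ^ m = L * D.c := by
      have : ((L * D.c : ℤ) : ℝ) = ((t ^ m - s ^ m : ℤ) : ℝ) := by rw [hLc]
      push_cast at this
      exact this.symm
    rw [h1]
    push_cast
    constructor
    · intro h
      field_simp
      linear_combination h
    · intro h
      rw [h]
      field_simp
      ring
  · intro R hR
    obtain ⟨N', hN'⟩ : ∃ N', n + k = N' + 1 := ⟨n + k - 1, by omega⟩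
    let σ : Fin (N' + 1) ≃ Fin n ⊕ Fin k := (finCongr hN'.symm).trans finSumFinEquiv.symm
    refine (W930.CG.cls W240.CG.grp W125.CG.uni) K N' m R hm (by omega) (elt D σ θ hpt) ?_ ?_ ?_
    · intro i
      refine W64.CG.val K m _ (by omega) fun v => ?_
      exact W405.CG.loc n k D m s t L K θ (by omega) (by omega) hL0.ne' hs0.ne' htn hF hst hsb htb _ _ v
    · intro ℓ hℓ hℓm
      exact indep_of_tests W290.CG.emb W349.CG.red hfr (by omega) hL0.ne' hF hpt σ ℓ hℓ (hG.tests ℓ hℓ hℓm)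
    · intro ℓ hℓ hℓm
      have hx1 : Tst D m q₁ s t (D.b ⟨0, hk⟩) := by
        have hp : Prime (q₁ : ℤ) := Nat.prime_iff_prime_int.1 hG.hq₁
        refine ⟨hG.hq₁, hG.hc₁, ?_, ?_, ?_⟩
        · rw [D.hab, sub_self, mul_zero, sub_zero]
          exact Dvd.dvd.mul_right (dvd_pow hG.ht₁ (by omega)) _
        · intro h
          have h1 : (q₁ : ℤ) ∣ s ^ m := by
            have := (dvd_pow hG.ht₁ (show m ≠ 0 by omega)).sub h
            simpa using this
          have h2 := hp.dvd_of_dvd_pow h1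
          have h3 : (q₁ : ℤ) ∣ 1 := by
            have := h2.sub hG.hs₁
            simpa using this
          exact hp.not_isUnit (isUnit_of_dvd_one h3)
        · intro h
          exact hG.hbad (h.trans (dvd_bad D (Sum.inr ⟨0, hk⟩)))
      have hle : ℓ ≤ m := Nat.le_of_dvd (by omega) hℓm
      have hq1 : q₁ - 1 + 2 = q₁ + 1 := by have := hG.hq4; omega
      refine ⟨fun hℓ2 => ?_, fun hℓ2 => ?_⟩
      · refine no_zeta W290.CG.emb W349.CG.mu hfr (by omega) hL0.ne' hF hG.hq₁ hx1 ?_ ?_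
        · intro h
          have := Nat.le_of_dvd hℓ.pos h
          have := hG.hqm'
          omega
        · intro h
          have h1 : ℓ ∣ q₁ + 1 := (hℓm.trans (Dvd.intro_left _ rfl)).trans hG.hqm
          rw [← hq1] at h1
          have h2 : ℓ ∣ 2 := (Nat.dvd_add_right h).1 h1
          exact hℓ2 ((Nat.prime_dvd_prime_iff_eq hℓ Nat.prime_two).1 h2)
      · refine no_zeta W290.CG.emb W349.CG.mu hfr (by omega) hL0.ne' hF hG.hq₁ hx1 ?_ ?_
        · intro h
          have := Nat.le_of_dvd (by norm_num) h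
          have := hG.hq4
          omega
        · intro h
          have h1 : 4 ∣ q₁ + 1 := (Dvd.intro _ rfl).trans hG.hqm
          rw [← hq1] at h1
          have h2 : 4 ∣ 2 := (Nat.dvd_add_right h).1 h1
          norm_num at h2

end Pool.Agent.Q22.CG
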