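import Pool.Agent.Q22.CG.Count
import Pool.Agent.TH665.CG6.Fin
import Pool.Agent.TH805.CG.Base7

set_option autoImplicit false

/-! The final estimates. -/

namespace Pool.Agent.Q22.CG

open NumberField Finset Filter Topology
open Pool.Agent
open Pool.Agent.W289.CG (Dat)

/-- the choice of the interval, few real roots -/
lemma few {n k : ℕ} (hn : 1 ≤ n) (D : Dat n k) (m : ℕ) (hm : 2 ≤ m) : ∃ x y : ℝ, 1 < x ∧ x < y ∧
    ∀ s t : ℝ, 0 < s → x * s < t → t < y * s →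
      {X : ℝ | ∏ i, (X - (D.a i : ℝ)) = - (s ^ m * D.c / (t ^ m - s ^ m))}.ncard = n % 2 := by
  have hcR : (0 : ℝ) < D.c := by exact_mod_cast D.hc
  obtain ⟨B, hB⟩ := W240.CG.real1 n D.a hn D.ha
  set ε : ℝ := D.c / (|B| + 1) with hε
  have hB1 : 0 < |B| + 1 := by positivity
  have hε0 : 0 < ε := div_pos hcR hB1
  obtain ⟨y, hy1, hym⟩ : ∃ y : ℝ, 1 < y ∧ y ^ m < 1 + ε := by
    have h1 : Filter.Tendsto (fun y : ℝ => y ^ m) (nhdsWithin 1 (Set.Ioi 1)) (nhds (1 ^ m)) :=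
      ((continuous_pow m).tendsto 1).mono_left nhdsWithin_le_nhds
    have h2 : ∀ᶠ y : ℝ in nhdsWithin 1 (Set.Ioi 1), y ^ m < 1 + ε :=
      h1.eventually (gt_mem_nhds (by rw [one_pow]; linarith))
    have h3 : ∀ᶠ y : ℝ in nhdsWithin 1 (Set.Ioi 1), 1 < y := self_mem_nhdsWithin
    obtain ⟨y, h4, h5⟩ := (h3.and h2).exists
    exact ⟨y, h4, h5⟩
  refine ⟨(1 + y) / 2, y, by linarith, by linarith, ?_⟩
  intro s t hsR hxs hys
  have htR : (s : ℝ) < t := by nlinarith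
  have h1 : (s : ℝ) ^ m < (t : ℝ) ^ m := pow_lt_pow_left₀ htR hsR.le (by omega)
  have h2 : (t : ℝ) ^ m < (1 + ε) * (s : ℝ) ^ m := by
    calc (t : ℝ) ^ m < (y * s) ^ m := pow_lt_pow_left₀ hys (by linarith) (by omega)
      _ = y ^ m * (s : ℝ) ^ m := mul_pow _ _ _
      _ ≤ (1 + ε) * (s : ℝ) ^ m := mul_le_mul_of_nonneg_right hym.le (by positivity)
  apply hB
  rw [lt_div_iff₀ (by linarith)]
  have h3 : (t : ℝ) ^ m - (s : ℝ) ^ m < ε * (s : ℝ) ^ m := by linarith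
  have h4 : (|B| + 1) * ((t : ℝ) ^ m - (s : ℝ) ^ m) < (|B| + 1) * (ε * (s : ℝ) ^ m) :=
    mul_lt_mul_of_pos_left h3 hB1
  have h5 : (|B| + 1) * (ε * (s : ℝ) ^ m) = (s : ℝ) ^ m * D.c := by
    rw [hε]; field_simp
  have h6 : B * ((t : ℝ) ^ m - (s : ℝ) ^ m) ≤ (|B| + 1) * ((t : ℝ) ^ m - (s : ℝ) ^ m) :=
    mul_le_mul_of_nonneg_right (by linarith [le_abs_self B]) (by linarith)
  linarith

/-- the choice of the interval, only real roots -/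
lemma all {n k : ℕ} (hn : 1 ≤ n) (D : Dat n k) (m : ℕ) (hm : 2 ≤ m) : ∃ x y : ℝ, 1 < x ∧ x < y ∧
    ∀ s t : ℝ, 0 < s → x * s < t → t < y * s →
      {X : ℝ | ∏ i, (X - (D.a i : ℝ)) = - (s ^ m * D.c / (t ^ m - s ^ m))}.ncard = n := by
  have hcR : (0 : ℝ) < D.c := by exact_mod_cast D.hc
  have hx1 : (1 : ℝ) < 1 + D.c * 3 ^ n := by
    have : (0 : ℝ) < D.c * 3 ^ n := by positivity
    linarith
  refine ⟨1 + D.c * 3 ^ n, 1 + D.c * 3 ^ n + 1, hx1, by linarith, ?_⟩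
  intro s t hsR hxs hys
  have hpos : 0 < (D.c : ℝ) * 3 ^ n * (s : ℝ) ^ m := by positivity
  have h2 : (1 + D.c * 3 ^ n) * (s : ℝ) ^ m < (t : ℝ) ^ m := by
    calc (1 + D.c * 3 ^ n) * (s : ℝ) ^ m ≤ (1 + D.c * 3 ^ n) ^ m * (s : ℝ) ^ m :=
          mul_le_mul_of_nonneg_right (le_self_pow₀ hx1.le (by omega)) (by positivity)
      _ = ((1 + D.c * 3 ^ n) * s) ^ m := (mul_pow _ _ _).symm
      _ < (t : ℝ) ^ m := pow_lt_pow_left₀ hxs (by positivity) (by omega)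
  have h3 : 0 < (t : ℝ) ^ m - (s : ℝ) ^ m := by nlinarith
  apply W240.CG.real2 n D.a hn D.ha
  · exact div_pos (by positivity) h3
  · rw [div_mul_eq_mul_div, div_lt_one h3]
    nlinarith

/-- the number of fields -/
theorem count {n k : ℕ} (hn : 2 ≤ n) (hk : 1 ≤ k) (D : Dat n k) (m : ℕ) (hm : 2 ≤ m)
    (x y : ℝ) (hx : 1 < x) (hxy : x < y) (r : ℕ)
    (hreal : ∀ s t : ℝ, 0 < s → x * s < t → t < y * s →
      {X : ℝ | ∏ i, (X - (D.a i : ℝ)) = - (s ^ m * D.c / (t ^ m - s ^ m))}.ncard = r) :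
    ∃ c X₀ : ℝ, 0 < c ∧ ∀ X : ℝ, X₀ ≤ X →
      ∃ (q : ℕ) (K : Fin q → Type) (_ : ∀ i, Field (K i)) (_ : ∀ i, NumberField (K i)),
        c * X ^ ((1 : ℝ) / (m * (n - 1) : ℕ)) / Real.log X ^ 5 ≤ q ∧
        (∀ i j, i ≠ j → IsEmpty (K i ≃+* K j)) ∧
        ∀ i, (Module.finrank ℚ (K i) = n ∧ InfinitePlace.nrRealPlaces (K i) = r ∧
          ∀ R, R + Units.rank (K i) ≤ n + k - 1 →
            ∃ f : Multiplicative (Fin R → ZMod m) →* ClassGroup (𝓞 (K i)), Function.Injective f) ∧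
          |(discr (K i) : ℝ)| ≤ X := by
  obtain ⟨M', a₁, c₀, C₂, Q₀, hM', ha₁, hc₀, hc₀', hC₂, hpair⟩ := pair_field hn hk D m hm x y hx hxy r hreal
  obtain ⟨c, hc, T₀, hmany⟩ := many_pairs M' a₁ m.minFac hM' ha₁ (Nat.minFac_prime (by omega)) c₀ hc₀ hc₀' Q₀
  obtain ⟨e, he⟩ : ∃ e : ℕ, e = m * (n - 1) := ⟨_, rfl⟩
  have he1 : 1 ≤ e := by rw [he]; exact Nat.mul_pos (by omega) (by omega)
  obtain ⟨C, hC⟩ : ∃ C : ℝ, C = max C₂ 1 := ⟨_, rfl⟩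
  have hC1 : 1 ≤ C := by rw [hC]; exact le_max_right _ _
  have hCC : C₂ ≤ C := by rw [hC]; exact le_max_left _ _
  obtain ⟨T₁, hT₁⟩ : ∃ T₁ : ℝ, T₁ = max T₀ 3 := ⟨_, rfl⟩
  have hT3 : 3 ≤ T₁ := by rw [hT₁]; exact le_max_right _ _
  have hT0 : T₀ ≤ T₁ := by rw [hT₁]; exact le_max_left _ _
  have hl2 : 0 < Real.log 2 := Real.log_pos (by norm_num)
  obtain ⟨d, hd⟩ : ∃ d : ℝ, d = (C ^ ((1 : ℝ) / (e : ℕ)))⁻¹ := ⟨_, rfl⟩
  have hd0 : 0 < d := by rw [hd]; exact inv_pos.2 (Real.rpow_pos_of_pos (by linarith) _)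
  refine ⟨c * (Real.log 2) ^ 2 * d, C * T₁ ^ (2 * e), by positivity, ?_⟩
  intro X hX
  have hTe : 1 ≤ T₁ ^ (2 * e) := one_le_pow₀ (by linarith)
  have hX3 : 3 ≤ X := by
    calc (3 : ℝ) ≤ T₁ := hT3
      _ ≤ T₁ ^ (2 * e) := le_self_pow₀ (by linarith) (by omega)
      _ ≤ C * T₁ ^ (2 * e) := le_mul_of_one_le_left (by linarith) hC1
      _ ≤ X := hX
  obtain ⟨T, hT⟩ : ∃ T : ℝ, T = (X / C) ^ (((2 * e : ℕ) : ℝ)⁻¹) := ⟨_, rfl⟩
  have hXC : 0 ≤ X / C := by positivity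
  have hTn : 0 ≤ T := by rw [hT]; exact Real.rpow_nonneg hXC _
  have hTpow : T ^ (2 * e) = X / C := by
    rw [hT]
    exact Real.rpow_inv_natCast_pow hXC (by omega)
  have hT₁T : T₁ ≤ T := by
    have h1 : T₁ ^ (2 * e) ≤ T ^ (2 * e) := by
      rw [hTpow, le_div_iff₀ (by linarith), mul_comm]; exact hX
    exact (pow_le_pow_iff_left₀ (by linarith) hTn (by omega)).1 h1
  have hTX : T ≤ X := by
    calc T ≤ T ^ (2 * e) := le_self_pow₀ (by linarith) (by omega)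
      _ = X / C := hTpow
      _ ≤ X := div_le_self (by linarith) hC1
  have hlogT : Real.log T ≤ Real.log X := Real.log_le_log (by linarith) hTX
  have hlT : 0 < Real.log T := Real.log_pos (by linarith)
  have hlX : 0 < Real.log X := Real.log_pos (by linarith)
  obtain ⟨P1, P2, hP1, hP2, h12, hcard⟩ := hmany T (hT0.trans hT₁T)
  obtain ⟨q, K, hF, hN, h1, h2, h3⟩ := classes_pairs P1 P2 (fun ℓ hℓ => (hP1 ℓ hℓ).1) (fun q hq => (hP2 q hq).1) X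
    (fun K _ _ => Module.finrank ℚ K = n ∧ InfinitePlace.nrRealPlaces K = r ∧
      ∀ R, R + Units.rank K ≤ n + k - 1 →
        ∃ f : Multiplicative (Fin R → ZMod m) →* ClassGroup (𝓞 K), Function.Injective f) (by
    intro ℓ hℓ q hq
    obtain ⟨hℓ1, hℓ2, hℓ3, hℓ4⟩ := hP1 ℓ hℓ
    obtain ⟨hq1, hq2, hq3⟩ := hP2 q hq
    obtain ⟨K, hK1, hK2, h1, h2, h3, h4, h5, h6⟩ := hpair ℓ q hℓ1 hq1 hℓ2 hq2 hℓ3 hq3 (h12 ℓ hℓ q hq)
    refine ⟨K, hK1, hK2, ⟨h1, h2, h6⟩, ?_, h4, h5⟩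
    have hℓ0 : (0 : ℝ) ≤ ℓ := Nat.cast_nonneg _
    calc |(discr K : ℝ)| ≤ C₂ * (ℓ : ℝ) ^ (2 * (m * (n - 1))) := h3
      _ ≤ C * T ^ (2 * e) := by
          rw [he]
          exact mul_le_mul hCC (pow_le_pow_left₀ hℓ0 hℓ4 _) (by positivity) (by linarith)
      _ = X := by rw [hTpow]; field_simp)
  refine ⟨q, K, hF, hN, ?_, h2, h3⟩
  have hT2 : T ^ 2 = X ^ ((1 : ℝ) / (e : ℕ)) * d := by
    have h4 : T ^ 2 = (X / C) ^ ((1 : ℝ) / (e : ℕ)) := by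
      rw [hT, ← Real.rpow_natCast, ← Real.rpow_mul hXC]
      congr 1
      have : (e : ℝ) ≠ 0 := by positivity
      push_cast
      field_simp
    rw [h4, Real.div_rpow (by linarith) (by linarith), hd, div_eq_mul_inv]
  have h5 : c * T ^ 2 / Real.log X ^ 3 ≤ c * T ^ 2 / Real.log T ^ 3 := by
    apply div_le_div_of_nonneg_left (by positivity) (by positivity)
    exact pow_le_pow_left₀ hlT.le hlogT 3
  have h6 : c * T ^ 2 / Real.log X ^ 3 ≤ q * (Real.log X / Real.log 2) ^ 2 := h5.trans (hcard.trans h1)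
  rw [← he]
  have h7 : c * Real.log 2 ^ 2 * d * X ^ ((1 : ℝ) / (e : ℕ)) / Real.log X ^ 5 =
      (c * T ^ 2 / Real.log X ^ 3) * (Real.log 2 / Real.log X) ^ 2 := by
    rw [hT2]; field_simp
  rw [h7]
  calc (c * T ^ 2 / Real.log X ^ 3) * (Real.log 2 / Real.log X) ^ 2
      ≤ (q * (Real.log X / Real.log 2) ^ 2) * (Real.log 2 / Real.log X) ^ 2 :=
        mul_le_mul_of_nonneg_right h6 (by positivity)
    _ = q := by field_simp

/-- the data -/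
theorem dat (n κ : ℕ) (hn : 3 ≤ n)
    (hκ : κ = if n ≤ 10 ∨ n = 12 then n - 1 else if n % 2 = 1 ∧ n ≤ 27 then 4 else 6) :
    Nonempty (Dat n κ) := by
  rw [hκ]
  split_ifs with h1 h2
  · exact W21.CG.small n (by omega)
  · exact TH805.CG4.all4 n (by omega) (by omega)
  · by_cases h3 : 46 ≤ n ∨ (24 ≤ n ∧ Even n)
    · exact TH665.CG6.dat6 n h3
    · push Not at h3
      by_cases h4 : n % 2 = 0
      · have h5 : ¬ 24 ≤ n := fun h => by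
          have h7 : ¬ Even n := by simpa using h3.2 h
          exact h7 (Nat.even_iff.2 h4)
        exact TH805.CG6.even6 n (by omega) h4
      · have h6 : n % 6 = 1 ∨ n % 6 = 3 ∨ n % 6 = 5 := by omega
        rcases h6 with h | h | h
        · exact TH805.CG6.odd1 n (by omega) h
        · exact TH805.CG6.odd3 n (by omega) h
        · exact TH805.CG6.odd5 n (by omega) h

end Pool.Agent.Q22.CG
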