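import Pool.Agent.Q22.CG.Fields
import Pool.Agent.Q22.CG.Choice

set_option autoImplicit false

/-! The field with two prescribed ramified primes. -/

namespace Pool.Agent.Q22.CG

open Polynomial NumberField nonZeroDivisors Finset
open Pool.Agent Pool.Agent.W289.CG

/-- the conjugates of `θ` are bounded -/
lemma conj_bound {n : ℕ} (hn : 1 ≤ n) (a : Fin n → ℤ) (B₀ : ℝ) (hB₀ : 0 ≤ B₀) (z : ℂ)
    (hz : ∏ i, ‖z - (a i : ℂ)‖ ≤ B₀) (i : Fin n) :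
    ‖z - (a i : ℂ)‖ ≤ 1 + B₀ + 2 * ∑ j, |(a j : ℝ)| := by
  by_contra hcon
  push Not at hcon
  have h1 : ∀ j, 1 + B₀ ≤ ‖z - (a j : ℂ)‖ := by
    intro j
    have h2 : ‖z - (a i : ℂ)‖ ≤ ‖z - (a j : ℂ)‖ + ‖((a j : ℂ) - (a i : ℂ))‖ := by
      have := norm_add_le (z - (a j : ℂ)) ((a j : ℂ) - (a i : ℂ))
      rwa [sub_add_sub_cancel] at this
    have h3 : ‖((a j : ℂ) - (a i : ℂ))‖ ≤ |(a j : ℝ)| + |(a i : ℝ)| := by
      refine (norm_sub_le _ _).trans ?_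
      rw [Complex.norm_intCast, Complex.norm_intCast]
    have h4 : |(a j : ℝ)| ≤ ∑ j, |(a j : ℝ)| :=
      Finset.single_le_sum (f := fun j => |(a j : ℝ)|) (fun j _ => abs_nonneg _) (mem_univ j)
    have h5 : |(a i : ℝ)| ≤ ∑ j, |(a j : ℝ)| :=
      Finset.single_le_sum (f := fun j => |(a j : ℝ)|) (fun j _ => abs_nonneg _) (mem_univ i)
    linarith
  have h2 : (1 + B₀) ^ n ≤ ∏ j, ‖z - (a j : ℂ)‖ := by
    calc (1 + B₀) ^ n = ∏ _j : Fin n, (1 + B₀) := by simp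
      _ ≤ _ := Finset.prod_le_prod (fun j _ => by linarith) fun j _ => h1 j
  have h3 : 1 + B₀ ≤ (1 + B₀) ^ n := le_self_pow₀ (by linarith) (by omega)
  linarith

/-- **The field of a pair of primes.** -/
theorem pair_field {n k : ℕ} (hn : 2 ≤ n) (hk : 1 ≤ k) (D : Dat n k) (m : ℕ) (hm : 2 ≤ m)
    (x y : ℝ) (hx : 1 < x) (hxy : x < y) (r : ℕ)
    (hreal : ∀ s t : ℝ, 0 < s → x * s < t → t < y * s →
      {X : ℝ | ∏ i, (X - (D.a i : ℝ)) = - (s ^ m * D.c / (t ^ m - s ^ m))}.ncard = r) :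
    ∃ (M' a₁ : ℕ) (c₀ C₂ : ℝ) (Q₀ : ℕ), 0 < M' ∧ a₁.Coprime M' ∧ 0 < c₀ ∧ c₀ ≤ 1 / 2 ∧ 0 < C₂ ∧
      ∀ ℓ q : ℕ, ℓ.Prime → q.Prime → Q₀ < ℓ → Q₀ < q → ℓ ≡ a₁ [MOD M'] → q ≡ 1 [MOD m.minFac] →
        (q : ℝ) ≤ c₀ * ℓ →
        ∃ (K : Type) (_ : Field K) (_ : NumberField K), Module.finrank ℚ K = n ∧
          InfinitePlace.nrRealPlaces K = r ∧
          |(discr K : ℝ)| ≤ C₂ * (ℓ : ℝ) ^ (2 * (m * (n - 1))) ∧
          (ℓ : ℤ) ∣ discr K ∧ (q : ℤ) ∣ discr K ∧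
          ∀ R, R + Units.rank K ≤ n + k - 1 →
            ∃ f : Multiplicative (Fin R → ZMod m) →* ClassGroup (𝓞 K), Function.Injective f := by
  obtain ⟨q₀, q₁, M, s₀, t₀, hM, hcop, hgood⟩ := exists_good W349.CG.WeilT.main W505.CG.root D m 0
    (by omega) hk hm
  -- the gcd
  obtain ⟨g, hg⟩ : ∃ g : ℤ, g = (Int.gcd (t₀ - s₀) M : ℤ) := ⟨_, rfl⟩
  have hg0 : 0 < g := by
    rw [hg]
    exact_mod_cast Int.gcd_pos_of_ne_zero_right _ hM.ne'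
  have hgM : g ∣ M := by rw [hg]; exact Int.gcd_dvd_right _ _
  have hgt : g ∣ t₀ - s₀ := by rw [hg]; exact Int.gcd_dvd_left _ _
  obtain ⟨M₁, hM₁⟩ := hgM
  obtain ⟨w₀, hw₀⟩ := hgt
  have hM₁0 : 0 < M₁ := by
    rw [hM₁] at hM
    exact pos_of_mul_pos_right hM hg0.le |> fun h => h
  have hcop₁ : IsCoprime w₀ M₁ := by
    have h1 : Int.gcd (t₀ - s₀) M = g.natAbs := by rw [hg]; simp
    rw [hw₀, hM₁, Int.gcd_mul_left] at h1
    have h2 : g.natAbs * Int.gcd w₀ M₁ = g.natAbs * 1 := by rw [h1, mul_one]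
    have h3 : Int.gcd w₀ M₁ = 1 := Nat.eq_of_mul_eq_mul_left (Int.natAbs_pos.2 hg0.ne') h2
    exact Int.isCoprime_iff_gcd_eq_one.2 h3
  have hmf : m.minFac.Prime := Nat.minFac_prime (by omega)
  obtain ⟨c₀, hc₀, hc₀', Q₀, hch⟩ := choice m m.minFac hm hmf (Nat.minFac_dvd m) M s₀ g hM hcop x y hx hxy
    hg0 ⟨M₁, hM₁⟩
  have hcR : (0 : ℝ) < D.c := by exact_mod_cast D.hc
  have hxm : 1 < x ^ m := one_lt_pow₀ hx (by omega)
  obtain ⟨B₀, hB₀⟩ : ∃ B₀ : ℝ, B₀ = D.c / (x ^ m - 1) := ⟨_, rfl⟩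
  have hB₀0 : 0 ≤ B₀ := by rw [hB₀]; exact div_nonneg hcR.le (by linarith)
  obtain ⟨B, hB⟩ : ∃ B : ℝ, B = 1 + B₀ + 2 * ∑ j, |(D.a j : ℝ)| := ⟨_, rfl⟩
  have hB1 : 1 ≤ B := by
    have : 0 ≤ ∑ j, |(D.a j : ℝ)| := sum_nonneg fun j _ => abs_nonneg _
    rw [hB]; linarith
  obtain ⟨C₁, hC₁⟩ : ∃ C₁ : ℝ, C₁ = y * g / (x - 1) := ⟨_, rfl⟩
  have hgR : (0 : ℝ) < g := by exact_mod_cast hg0
  have hC₁0 : 0 < C₁ := by
    rw [hC₁]; exact div_pos (mul_pos (by linarith) hgR) (by linarith)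
  refine ⟨M₁.natAbs, (w₀ % M₁).natAbs, c₀, ((n.factorial : ℝ) * (C₁ ^ m * B ^ n) ^ (n - 1)) ^ 2,
    Q₀ + D.c.natAbs, Int.natAbs_pos.2 hM₁0.ne', ?_, hc₀, hc₀', by positivity, ?_⟩
  · have h1 : IsCoprime (w₀ % M₁) M₁ := by
      have h2 : w₀ % M₁ = w₀ + M₁ * (-(w₀ / M₁)) := by
        rw [Int.emod_def]; ring
      rw [h2]
      exact IsCoprime.add_mul_left_left hcop₁ _
    rw [Int.isCoprime_iff_gcd_eq_one] at h1
    exact h1
  intro ℓ q hℓ hq hℓQ hqQ hℓa hq1 hqℓ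
  have hℓ0 : (0 : ℝ) < ℓ := by exact_mod_cast hℓ.pos
  -- the parameters
  obtain ⟨s, hsM, hs0, hst, hxs, hys, hℓs, hqs, hℓ1, hℓ2, hq1', hq2⟩ := hch ℓ q hℓ hq (by omega) (by omega)
    ((Nat.modEq_iff_dvd' hq.one_lt.le).1 hq1.symm) hqℓ
  obtain ⟨t, ht⟩ : ∃ t : ℤ, t = s + g * ℓ := ⟨_, rfl⟩
  rw [← ht] at hst hℓ1 hℓ2 hq1' hq2
  have htR : (t : ℝ) = s + g * ℓ := by rw [ht]; push_cast; rfl
  rw [← htR] at hxs hys
  have hsR : (0 : ℝ) < s := by exact_mod_cast hs0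
  have hslt : s < t := by
    have h1 : (s : ℝ) < t := by nlinarith
    exact_mod_cast h1
  have htM : M ∣ t - t₀ := by
    have h1 : M₁ ∣ (ℓ : ℤ) - w₀ := by
      have h2 : ((ℓ : ℤ)) ≡ ((w₀ % M₁).natAbs : ℤ) [ZMOD (M₁.natAbs : ℤ)] := (Int.natCast_modEq_iff).2 hℓa
      have h3 : ((w₀ % M₁).natAbs : ℤ) = w₀ % M₁ := Int.natAbs_of_nonneg (Int.emod_nonneg _ hM₁0.ne')
      have h4 : ((M₁.natAbs : ℕ) : ℤ) = M₁ := Int.natAbs_of_nonneg hM₁0.le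
      rw [h3, h4] at h2
      have h5 : (ℓ : ℤ) ≡ w₀ [ZMOD M₁] := h2.trans (Int.mod_modEq _ _)
      exact (Int.modEq_iff_dvd.1 h5.symm)
    obtain ⟨v, hv⟩ := h1
    obtain ⟨v', hv'⟩ := hsM
    refine ⟨v' + v, ?_⟩
    rw [ht]
    have h2 : t₀ = s₀ + g * w₀ := by linear_combination hw₀
    rw [h2]
    have h3 : M * v = g * (ℓ - w₀) := by rw [hv, hM₁]; ring
    linear_combination hv' - h3
  have hG := hgood s t hsM htM
  obtain ⟨K, hK1, hK2, θ, L, hL0, hLc, hθ, hgen, hfr, hram, hpl, hcl⟩ :=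
    field_st hn hk D m 0 q₀ q₁ hm s t hG hs0 hslt hst
  have hLR : (0 : ℝ) < L := by exact_mod_cast hL0
  have hLcR : (L : ℝ) * D.c = (t : ℝ) ^ m - (s : ℝ) ^ m := by exact_mod_cast hLc
  have hxs0 : 0 < x * s := by positivity
  have htm : x ^ m * (s : ℝ) ^ m ≤ (t : ℝ) ^ m := by
    rw [← mul_pow]; exact pow_le_pow_left₀ hxs0.le hxs.le m
  have hsm : (0 : ℝ) < (s : ℝ) ^ m := by positivity
  -- ramification
  have hram' : ∀ q' : ℕ, q'.Prime → D.c.natAbs < q' → (q' : ℤ) ∣ t ^ m - s ^ m →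
      ¬ (q' : ℤ) ^ 2 ∣ t ^ m - s ^ m → ¬ (q' : ℤ) ∣ s → (q' : ℤ) ∣ discr K := by
    intro q' hq' hq'c h1 h2 h3
    have hp' : Prime (q' : ℤ) := Nat.prime_iff_prime_int.1 hq'
    have hqc : ¬ (q' : ℤ) ∣ D.c := by
      intro h
      have := Int.le_of_dvd D.hc h
      omega
    refine hram q' hq' ?_ ?_ h3
    · rw [← hLc] at h1
      exact (hp'.dvd_or_dvd h1).resolve_right hqc
    · intro h
      exact h2 (by rw [← hLc]; exact Dvd.dvd.mul_right h _)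
  refine ⟨K, hK1, hK2, hfr, ?_, ?_, hram' ℓ hℓ (by omega) hℓ1 hℓ2 hℓs, hram' q hq (by omega) hq1' hq2 hqs, hcl⟩
  · rw [hpl]
    exact hreal s t hsR hxs hys
  · -- the discriminant
    have hconj : ∀ (σ : K →+* ℂ) (i : Fin n), ‖σ θ - (D.a i : ℂ)‖ ≤ B := by
      intro σ i
      rw [hB]
      apply conj_bound (by omega) D.a B₀ hB₀0 (σ θ) _ i
      have h1 := congrArg σ hθ
      rw [map_add, map_mul, map_prod, map_intCast, map_intCast, map_zero] at h1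
      have h2 : (L : ℂ) * ∏ i, (σ θ - (D.a i : ℂ)) = -((s ^ m : ℤ) : ℂ) := by
        have h3 : ∏ i, (σ θ - (D.a i : ℂ)) = ∏ i, σ (θ - (D.a i : K)) :=
          prod_congr rfl fun i _ => by rw [map_sub, map_intCast]
        rw [h3]
        linear_combination h1
      have h3 := congrArg (fun z : ℂ => ‖z‖) h2
      simp only [norm_mul, norm_prod, norm_neg] at h3
      rw [Complex.norm_intCast, Complex.norm_intCast, abs_of_pos hLR] at h3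
      push_cast at h3
      rw [abs_of_pos hsm] at h3
      have h4 : ∏ i, ‖σ θ - (D.a i : ℂ)‖ = (s : ℝ) ^ m / L := by
        rw [eq_div_iff hLR.ne', mul_comm]; exact h3
      rw [h4, hB₀, div_le_div_iff₀ hLR (by linarith)]
      have h5 : (x ^ m - 1) * (s : ℝ) ^ m ≤ L * D.c := by rw [hLcR]; linarith
      linarith
    have h1 := disc_le (by omega) D.a L (s ^ m) hL0 θ hθ hfr hgen B hB1 hconj
    refine h1.trans ?_
    have ht1 : (t : ℝ) ≤ C₁ * ℓ := by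
      have hx1 : 0 < x - 1 := by linarith
      have h2 : (s : ℝ) ≤ g * ℓ / (x - 1) := by
        rw [le_div_iff₀ hx1]
        rw [htR] at hxs
        nlinarith
      calc (t : ℝ) ≤ y * s := hys.le
        _ ≤ y * (g * ℓ / (x - 1)) := mul_le_mul_of_nonneg_left h2 (by linarith)
        _ = C₁ * ℓ := by rw [hC₁]; ring
    have ht0 : (0 : ℝ) < t := by linarith
    have hL1 : (L : ℝ) ≤ (C₁ * ℓ) ^ m := by
      have hc1 : (1 : ℝ) ≤ D.c := by exact_mod_cast D.hc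
      calc (L : ℝ) ≤ L * D.c := le_mul_of_one_le_right hLR.le hc1
        _ ≤ (t : ℝ) ^ m := by rw [hLcR]; linarith
        _ ≤ _ := pow_le_pow_left₀ ht0.le ht1 m
    calc ((n.factorial : ℝ) * ((L : ℝ) * B ^ n) ^ (n - 1)) ^ 2
        ≤ ((n.factorial : ℝ) * ((C₁ * ℓ) ^ m * B ^ n) ^ (n - 1)) ^ 2 := by
          apply pow_le_pow_left₀ (by positivity)
          apply mul_le_mul_of_nonneg_left _ (by positivity)
          apply pow_le_pow_left₀ (by positivity)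
          exact mul_le_mul_of_nonneg_right hL1 (by positivity)
      _ = _ := by
          rw [mul_pow C₁, mul_right_comm, mul_pow (C₁ ^ m * B ^ n), ← mul_assoc, mul_pow _ (((ℓ : ℝ) ^ m) ^ (n - 1)),
            ← pow_mul, ← pow_mul]
          ring_nf

end Pool.Agent.Q22.CG
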