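import Mathlib

set_option autoImplicit false

/-! Counting the real solutions of `∏ (x - a l) = - v`. -/

namespace Pool.Agent.Q22.CG

open Finset

/-- the product of the absolute values -/
noncomputable def absP {n : ℕ} (a : Fin n → ℝ) (x : ℝ) : ℝ := ∏ l, |x - a l|

lemma absP_eq {n : ℕ} (a : Fin n → ℝ) (x : ℝ) : absP a x = |∏ l, (x - a l)| := by
  rw [absP, Finset.abs_prod]

lemma continuous_absP {n : ℕ} (a : Fin n → ℝ) : Continuous (absP a) := by
  unfold absP; fun_prop

lemma absP_root {n : ℕ} (a : Fin n → ℝ) (l : Fin n) : absP a (a l) = 0 := by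
  rw [absP]; exact prod_eq_zero (mem_univ l) (by simp)

/-- the sign in a gap -/
lemma sign_gap {n : ℕ} (a : Fin (n + 1) → ℝ) (ha : StrictMono a) (i : Fin n) (x : ℝ)
    (h1 : a i.castSucc < x) (h2 : x < a i.succ) :
    ∏ l, (x - a l) = (-1) ^ (n - i : ℕ) * absP a x := by
  have h3 : ∀ l, x - a l = (if i.succ ≤ l then -1 else 1) * |x - a l| := by
    intro l
    split_ifs with h
    · have h4 := ha.monotone h
      rw [abs_of_neg (by linarith)]; ring
    · have h4 : l ≤ i.castSucc := by
        rw [not_le] at h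
        exact Fin.le_castSucc_iff.2 h
      have h5 := ha.monotone h4
      rw [abs_of_pos (by linarith)]; ring
  calc ∏ l, (x - a l) = ∏ l, ((if i.succ ≤ l then -1 else 1) * |x - a l|) :=
        prod_congr rfl fun l _ => h3 l
    _ = (∏ l, (if i.succ ≤ l then (-1 : ℝ) else 1)) * absP a x := prod_mul_distrib
    _ = _ := by
        congr 1
        rw [← prod_filter, prod_const]
        congr 1
        have : (univ.filter fun l : Fin (n + 1) => i.succ ≤ l) = Finset.Ici i.succ := by
          ext l; simp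
        rw [this, Fin.card_Ici]
        simp

/-- strict logarithmic concavity -/
lemma mid_gt {n : ℕ} (a : Fin (n + 1) → ℝ) (x y z v : ℝ) (hxy : x < y) (hyz : y < z)
    (h : ∀ l, a l < x ∨ z < a l) (hv : 0 < v) (hx : absP a x = v) (hz : absP a z = v) :
    v < absP a y := by
  have hxz : x < z := hxy.trans hyz
  obtain ⟨t, ht⟩ : ∃ t : ℝ, t = (z - y) / (z - x) := ⟨_, rfl⟩
  have hzx : 0 < z - x := by linarith
  have ht0 : 0 < t := by rw [ht]; exact div_pos (by linarith) hzx
  have ht1 : t < 1 := by rw [ht, div_lt_one hzx]; linarith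
  have hy : y = t * x + (1 - t) * z := by
    rw [ht]; field_simp; ring
  have key : ∀ l, t * Real.log |x - a l| + (1 - t) * Real.log |z - a l| < Real.log |y - a l| := by
    intro l
    rcases h l with hl | hl
    · rw [abs_of_pos (by linarith), abs_of_pos (by linarith), abs_of_pos (by linarith)]
      have h1 := strictConcaveOn_log_Ioi.2 (Set.mem_Ioi.2 (show 0 < x - a l by linarith))
        (Set.mem_Ioi.2 (show 0 < z - a l by linarith)) (by intro h; linarith) ht0
        (show 0 < 1 - t by linarith) (by ring)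
      rw [smul_eq_mul, smul_eq_mul, smul_eq_mul, smul_eq_mul] at h1
      have h2 : t * (x - a l) + (1 - t) * (z - a l) = y - a l := by rw [hy]; ring
      rwa [h2] at h1
    · rw [abs_of_neg (by linarith), abs_of_neg (by linarith), abs_of_neg (by linarith)]
      have h1 := strictConcaveOn_log_Ioi.2 (Set.mem_Ioi.2 (show 0 < -(x - a l) by linarith))
        (Set.mem_Ioi.2 (show 0 < -(z - a l) by linarith)) (by intro h; linarith) ht0
        (show 0 < 1 - t by linarith) (by ring)
      rw [smul_eq_mul, smul_eq_mul, smul_eq_mul, smul_eq_mul] at h1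
      have h2 : t * (-(x - a l)) + (1 - t) * (-(z - a l)) = -(y - a l) := by rw [hy]; ring
      rwa [h2] at h1
  have hlog : ∀ w, (∀ l, w ≠ a l) → Real.log (absP a w) = ∑ l, Real.log |w - a l| := by
    intro w hw
    rw [absP, Real.log_prod]
    intro l _
    exact abs_ne_zero.2 (sub_ne_zero.2 (hw l))
  have hsum : ∑ l, (t * Real.log |x - a l| + (1 - t) * Real.log |z - a l|) < ∑ l, Real.log |y - a l| :=
    sum_lt_sum_of_nonempty ⟨0, mem_univ _⟩ fun l _ => key l
  rw [sum_add_distrib, ← mul_sum, ← mul_sum,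
    ← hlog x (fun l => by rcases h l with h | h <;> intro h' <;> linarith),
    ← hlog z (fun l => by rcases h l with h | h <;> intro h' <;> linarith),
    ← hlog y (fun l => by rcases h l with h | h <;> intro h' <;> linarith), hx, hz] at hsum
  have h5 : Real.log v < Real.log (absP a y) := by linarith
  have h6 : 0 < absP a y := by
    rw [absP]
    exact prod_pos fun l _ => abs_pos.2 (by rcases h l with h | h <;> intro h' <;> linarith)
  exact (Real.log_lt_log_iff hv h6).1 h5

/-- locating a number between the roots -/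
lemma locate {n : ℕ} (a : Fin (n + 1) → ℝ) (x : ℝ) (h0 : a 0 ≤ x) (h1 : x < a (Fin.last n)) :
    ∃ i : Fin n, a i.castSucc ≤ x ∧ x < a i.succ := by
  classical
  by_contra hcon
  push Not at hcon
  have : ∀ k : ℕ, ∀ hk : k < n + 1, a ⟨k, hk⟩ ≤ x := by
    intro k
    induction k with
    | zero => intro hk; exact h0
    | succ k ih =>
      intro hk
      have h2 := ih (by omega)
      exact hcon ⟨k, by omega⟩ h2
  have h3 := this n (by omega)
  have h4 : (⟨n, by omega⟩ : Fin (n + 1)) = Fin.last n := rfl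
  rw [h4] at h3
  linarith

/-- the solutions in one gap -/
lemma gap_two {n : ℕ} (a : Fin (n + 1) → ℝ) (ha : StrictMono a) (i : Fin n) (v : ℝ) (hv : 0 < v)
    (hdeep : ∃ x, a i.castSucc ≤ x ∧ x ≤ a i.succ ∧ v < absP a x) :
    ∃ x y : ℝ, x < y ∧ a i.castSucc < x ∧ y < a i.succ ∧
      ∀ z, (a i.castSucc ≤ z ∧ z ≤ a i.succ ∧ absP a z = v) ↔ (z = x ∨ z = y) := by
  obtain ⟨w, hw1, hw2, hw3⟩ := hdeep
  have hc := continuous_absP a
  have e1 : v ∈ Set.Icc (absP a (a i.castSucc)) (absP a w) := by
    rw [absP_root]; exact ⟨hv.le, hw3.le⟩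
  obtain ⟨x, ⟨hx1, hx2⟩, hx3⟩ := intermediate_value_Icc hw1 hc.continuousOn e1
  have e2 : v ∈ Set.Icc (absP a (a i.succ)) (absP a w) := by
    rw [absP_root]; exact ⟨hv.le, hw3.le⟩
  obtain ⟨y, ⟨hy1, hy2⟩, hy3⟩ := intermediate_value_Icc' hw2 hc.continuousOn e2
  have hxw : x ≠ w := fun h => by rw [h] at hx3; linarith
  have hyw : y ≠ w := fun h => by rw [h] at hy3; linarith
  have hxw' : x < w := lt_of_le_of_ne hx2 hxw
  have hwy : w < y := lt_of_le_of_ne hy1 (Ne.symm hyw)
  have hxa : a i.castSucc ≠ x := fun h => by rw [← h, absP_root] at hx3; linarith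
  have hya : y ≠ a i.succ := fun h => by rw [h, absP_root] at hy3; linarith
  have hx1' : a i.castSucc < x := lt_of_le_of_ne hx1 hxa
  have hy2' : y < a i.succ := lt_of_le_of_ne hy2 hya
  refine ⟨x, y, hxw'.trans hwy, hx1', hy2', ?_⟩
  -- no three solutions
  have hno : ∀ p q r : ℝ, p < q → q < r → a i.castSucc < p → r < a i.succ → absP a p = v →
      absP a r = v → absP a q ≠ v := by
    intro p q r hpq hqr hp hr h1 h2 h3
    have := mid_gt a p q r v hpq hqr (fun l => by
      rcases le_or_gt l i.castSucc with hl | hl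
      · left; exact lt_of_le_of_lt (ha.monotone hl) hp
      · right
        have hl' : i.succ ≤ l := Fin.castSucc_lt_iff_succ_le.1 hl
        exact lt_of_lt_of_le hr (ha.monotone hl')) hv h1 h2
    linarith
  intro z
  constructor
  · rintro ⟨hz1, hz2, hz3⟩
    have hz1' : a i.castSucc < z := lt_of_le_of_ne hz1 fun h => by rw [← h, absP_root] at hz3; linarith
    have hz2' : z < a i.succ := lt_of_le_of_ne hz2 fun h => by rw [h, absP_root] at hz3; linarith
    by_contra hcon
    push Not at hcon
    rcases lt_or_gt_of_ne hcon.1 with h | h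
    · exact hno z x y h (hxw'.trans hwy) hz1' hy2' hz3 hy3 hx3
    · rcases lt_or_gt_of_ne hcon.2 with h' | h'
      · exact hno x z y h h' hx1' hy2' hx3 hy3 hz3
      · exact hno x y z (hxw'.trans hwy) h' hx1' hz2' hx3 hz3 hy3
  · rintro (rfl | rfl)
    · exact ⟨hx1, by linarith, hx3⟩
    · exact ⟨by linarith, hy2, hy3⟩

/-- the solution on the left ray -/
lemma left_one {n : ℕ} (a : Fin (n + 1) → ℝ) (ha : StrictMono a) (v : ℝ) (hv : 0 < v) :
    ∃ x : ℝ, x < a 0 ∧ ∀ z, (z < a 0 ∧ absP a z = v) ↔ z = x := by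
  have hc := continuous_absP a
  obtain ⟨b, hb⟩ : ∃ b : ℝ, b = max 1 v := ⟨_, rfl⟩
  have hb1 : 1 ≤ b := by rw [hb]; exact le_max_left _ _
  have hbv : v ≤ b := by rw [hb]; exact le_max_right _ _
  have h1 : v ≤ absP a (a 0 - b) := by
    have h2 : ∀ l, b ≤ |a 0 - b - a l| := by
      intro l
      have := ha.monotone (Fin.zero_le l)
      rw [abs_of_neg (by linarith)]; linarith
    calc v ≤ b := hbv
      _ ≤ b ^ (n + 1) := le_self_pow₀ hb1 (by omega)
      _ = ∏ _l : Fin (n + 1), b := by rw [prod_const, card_univ, Fintype.card_fin]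
      _ ≤ absP a (a 0 - b) := prod_le_prod (fun l _ => by linarith) fun l _ => h2 l
  have e1 : v ∈ Set.Icc (absP a (a 0)) (absP a (a 0 - b)) := by
    rw [absP_root]; exact ⟨hv.le, h1⟩
  obtain ⟨x, ⟨hx1, hx2⟩, hx3⟩ := intermediate_value_Icc' (by linarith) hc.continuousOn e1
  have hx2' : x < a 0 := lt_of_le_of_ne hx2 fun h => by rw [h, absP_root] at hx3; linarith
  refine ⟨x, hx2', fun z => ⟨?_, ?_⟩⟩
  · rintro ⟨hz1, hz2⟩
    have hmono : ∀ p q : ℝ, p < q → q < a 0 → absP a q < absP a p := by
      intro p q hpq hq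
      unfold absP
      apply prod_lt_prod_of_nonempty
      · intro l _
        have := ha.monotone (Fin.zero_le l)
        exact abs_pos.2 (by intro h; linarith)
      · intro l _
        have := ha.monotone (Fin.zero_le l)
        rw [abs_of_neg (by linarith), abs_of_neg (by linarith)]; linarith
      · exact ⟨0, mem_univ _⟩
    by_contra hne
    rcases lt_or_gt_of_ne hne with h | h
    · have := hmono z x h hx2'; linarith
    · have := hmono x z h hz1; linarith
  · rintro rfl
    exact ⟨hx2', hx3⟩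

end Pool.Agent.Q22.CG
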