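import Pool.Agent.Q22.CG.Sgn

set_option autoImplicit false

/-! Counting the real solutions of `∏ (x - a l) = - v`: the number. -/

namespace Pool.Agent.Q22.CG

open Finset

/-- the sign on the left ray -/
lemma sign_left {n : ℕ} (a : Fin (n + 1) → ℝ) (ha : StrictMono a) (x : ℝ) (h1 : x < a 0) :
    ∏ l, (x - a l) = (-1) ^ (n + 1) * absP a x := by
  have h3 : ∀ l, x - a l = (-1) * |x - a l| := by
    intro l
    have := ha.monotone (Fin.zero_le l)
    rw [abs_of_neg (by linarith)]; ring
  calc ∏ l, (x - a l) = ∏ l, ((-1) * |x - a l|) := prod_congr rfl fun l _ => h3 l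
    _ = _ := by rw [prod_mul_distrib, prod_const, card_univ, Fintype.card_fin, absP]

theorem count_real {n : ℕ} (a : Fin (n + 1) → ℝ) (ha : StrictMono a) (D : Fin n → ℝ)
    (hD1 : ∀ i x, a i.castSucc ≤ x → x ≤ a i.succ → absP a x ≤ D i)
    (hD2 : ∀ i, ∃ x, a i.castSucc ≤ x ∧ x ≤ a i.succ ∧ absP a x = D i)
    (v : ℝ) (hv : 0 < v) (hvD : ∀ i : Fin n, Odd (n - i : ℕ) → D i ≠ v) :
    {x : ℝ | ∏ l, (x - a l) = - v}.ncard =
      (n + 1) % 2 + 2 * (univ.filter fun i : Fin n => Odd (n - i : ℕ) ∧ v < D i).card := by
  classical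
  have hg : ∀ i : Fin n, v < D i → ∃ x y : ℝ, x < y ∧ a i.castSucc < x ∧ y < a i.succ ∧
      ∀ z, (a i.castSucc ≤ z ∧ z ≤ a i.succ ∧ absP a z = v) ↔ (z = x ∨ z = y) := by
    intro i hi
    obtain ⟨x, h1, h2, h3⟩ := hD2 i
    exact gap_two a ha i v hv ⟨x, h1, h2, by rw [h3]; exact hi⟩
  choose! X Y hXY h1 h2 h3 using hg
  obtain ⟨x₀, hx₀, hx₀'⟩ := left_one a ha v hv
  set T := univ.filter fun i : Fin n => Odd (n - i : ℕ) ∧ v < D i with hT
  set L : Finset ℝ := if Odd (n + 1) then {x₀} else ∅ with hL
  have hLcard : L.card = (n + 1) % 2 := by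
    rw [hL]
    split_ifs with h
    · rw [card_singleton, Nat.odd_iff.1 h]
    · rw [Nat.not_odd_iff.1 h, card_empty]
  have hset : {x : ℝ | ∏ l, (x - a l) = - v} = ((L ∪ T.biUnion (fun i => {X i, Y i}) : Finset ℝ) : Set ℝ) := by
    ext z
    rw [Set.mem_ofPred_eq, mem_coe, mem_union, mem_biUnion]
    constructor
    · intro hz
      rcases lt_or_ge z (a 0) with h0 | h0
      · left
        rw [sign_left a ha z h0] at hz
        rcases Nat.even_or_odd (n + 1) with hn | hn
        · rw [hn.neg_one_pow, one_mul] at hz
          have : 0 ≤ absP a z := prod_nonneg fun l _ => abs_nonneg _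
          linarith
        · rw [hn.neg_one_pow] at hz
          rw [hL, if_pos hn, mem_singleton]
          exact (hx₀' z).1 ⟨h0, by linarith⟩
      · rcases lt_or_ge z (a (Fin.last n)) with h4 | h4
        · right
          obtain ⟨i, hi1, hi2⟩ := locate a z h0 h4
          have hne : a i.castSucc ≠ z := by
            rintro rfl
            rw [prod_eq_zero (mem_univ i.castSucc) (by simp)] at hz
            linarith
          rw [sign_gap a ha i z (lt_of_le_of_ne hi1 hne) hi2] at hz
          have h5 : 0 ≤ absP a z := prod_nonneg fun l _ => abs_nonneg _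
          rcases Nat.even_or_odd (n - i : ℕ) with hn | hn
          · rw [hn.neg_one_pow, one_mul] at hz; linarith
          · rw [hn.neg_one_pow] at hz
            have h6 : absP a z = v := by linarith
            have h7 := hD1 i z hi1 hi2.le
            have h8 : v < D i := lt_of_le_of_ne (by linarith) (Ne.symm (hvD i hn))
            refine ⟨i, by rw [hT, mem_filter]; exact ⟨mem_univ _, hn, h8⟩, ?_⟩
            rw [mem_insert, mem_singleton]
            exact (h3 i h8 z).1 ⟨hi1, hi2.le, h6⟩
        · exfalso
          have : 0 ≤ ∏ l, (z - a l) := prod_nonneg fun l _ => by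
            have := ha.monotone (Fin.le_last l)
            linarith
          linarith
    · rintro (hz | ⟨i, hi, hz⟩)
      · rw [hL] at hz
        split_ifs at hz with hn
        · rw [mem_singleton] at hz
          obtain ⟨h4, h5⟩ := (hx₀' z).2 hz
          rw [sign_left a ha z h4, hn.neg_one_pow, h5]; ring
        · exact absurd hz (notMem_empty _)
      · rw [hT, mem_filter] at hi
        obtain ⟨-, hn, h8⟩ := hi
        rw [mem_insert, mem_singleton] at hz
        obtain ⟨h4, h5, h6⟩ := (h3 i h8 z).2 hz
        have h7 : a i.castSucc < z ∧ z < a i.succ := by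
          have e1 := hXY i h8
          have e2 := h1 i h8
          have e3 := h2 i h8
          rcases hz with rfl | rfl
          · exact ⟨e2, by linarith⟩
          · exact ⟨by linarith, e3⟩
        rw [sign_gap a ha i z h7.1 h7.2, hn.neg_one_pow, h6]; ring
  have hmemgap : ∀ i ∈ T, ∀ z ∈ ({X i, Y i} : Finset ℝ), a i.castSucc < z ∧ z < a i.succ := by
    intro i hi z hz
    rw [hT, mem_filter] at hi
    rw [mem_insert, mem_singleton] at hz
    have e1 := hXY i hi.2.2
    have e2 := h1 i hi.2.2
    have e3 := h2 i hi.2.2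
    rcases hz with rfl | rfl
    · exact ⟨e2, by linarith⟩
    · exact ⟨by linarith, e3⟩
  rw [hset, Set.ncard_coe_finset, card_union_of_disjoint, hLcard, card_biUnion]
  · congr 1
    rw [sum_congr rfl (g := fun _ => 2), sum_const, smul_eq_mul, mul_comm]
    intro i hi
    rw [hT, mem_filter] at hi
    rw [card_pair (hXY i hi.2.2).ne]
  · intro i hi j hj hij
    rw [Function.onFun, disjoint_left]
    intro z hz hz'
    obtain ⟨e1, e2⟩ := hmemgap i hi z hz
    obtain ⟨e3, e4⟩ := hmemgap j hj z hz'
    rcases lt_or_gt_of_ne hij with h | h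
    · have : a i.succ ≤ a j.castSucc := ha.monotone (by
        rw [Fin.le_castSucc_iff]; exact Fin.succ_lt_succ_iff.2 h)
      linarith
    · have : a j.succ ≤ a i.castSucc := ha.monotone (by
        rw [Fin.le_castSucc_iff]; exact Fin.succ_lt_succ_iff.2 h)
      linarith
  · rw [disjoint_left]
    intro z hz hz'
    rw [mem_biUnion] at hz'
    obtain ⟨i, hi, hz'⟩ := hz'
    obtain ⟨e1, e2⟩ := hmemgap i hi z hz'
    have e3 : z < a 0 := by
      rw [hL] at hz
      split_ifs at hz with hn
      · rw [mem_singleton] at hz; rw [hz]; exact hx₀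
      · exact absurd hz (notMem_empty _)
    have := ha.monotone (Fin.zero_le i.castSucc)
    linarith

/-- thresholds -/
lemma threshold (E : Finset ℝ) (hE : ∀ e ∈ E, 0 < e) (r : ℕ) (hr : r ≤ E.card) :
    ∃ L U : ℝ, 0 ≤ L ∧ L < U ∧ (∀ e ∈ E, e ≤ L ∨ U ≤ e) ∧ (E.filter fun e => U ≤ e).card = E.card - r := by
  classical
  induction r with
  | zero =>
    rcases E.eq_empty_or_nonempty with h | h
    · exact ⟨0, 1, le_rfl, one_pos, by simp [h], by simp [h]⟩
    · obtain ⟨m, hm, hmin⟩ := E.exists_min_image id h
      refine ⟨0, m, le_rfl, hE m hm, fun e he => Or.inr (hmin e he), ?_⟩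
      rw [filter_true_of_mem (p := fun e => m ≤ e) (fun e he => hmin e he), Nat.sub_zero]
  | succ r ih =>
    obtain ⟨L, U, h1, h2, h3, h4⟩ := ih (by omega)
    have hne : (E.filter fun e => U ≤ e).Nonempty := by
      rw [← card_pos]; omega
    obtain ⟨m, hm, hmin⟩ := (E.filter fun e => U ≤ e).exists_min_image id hne
    rw [mem_filter] at hm
    have hcard : (E.filter fun e => m < e).card = E.card - (r + 1) := by
      have : (E.filter fun e => m < e) = (E.filter fun e => U ≤ e).erase m := by
        ext e
        rw [mem_filter, mem_erase, mem_filter]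
        constructor
        · rintro ⟨h5, h6⟩
          exact ⟨h6.ne', h5, hm.2.trans h6.le⟩
        · rintro ⟨h5, h6, h7⟩
          have := hmin e (by rw [mem_filter]; exact ⟨h6, h7⟩)
          exact ⟨h6, lt_of_le_of_ne this (Ne.symm h5)⟩
      rw [this, card_erase_of_mem (by rw [mem_filter]; exact hm), h4]
      omega
    rcases (E.filter fun e => m < e).eq_empty_or_nonempty with h | h
    · refine ⟨m, m + 1, (hE m hm.1).le, by linarith, ?_, ?_⟩
      · intro e he
        left
        by_contra hcon
        rw [not_le] at hcon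
        have : e ∈ E.filter fun e => m < e := by rw [mem_filter]; exact ⟨he, hcon⟩
        rw [h] at this
        exact absurd this (notMem_empty _)
      · rw [h, card_empty] at hcard
        rw [← hcard, card_eq_zero, filter_eq_empty_iff]
        intro e he h5
        have : e ∈ E.filter fun e => m < e := by rw [mem_filter]; exact ⟨he, by linarith⟩
        rw [h] at this
        exact absurd this (notMem_empty _)
    · obtain ⟨M, hM, hMmin⟩ := (E.filter fun e => m < e).exists_min_image id h
      have hM' := mem_filter.1 hM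
      have hiff : ∀ e ∈ E, m < e → M ≤ e := fun e he h5 =>
        hMmin e (by rw [mem_filter]; exact ⟨he, h5⟩)
      refine ⟨m, M, (hE m hm.1).le, hM'.2, ?_, ?_⟩
      · intro e he
        rcases le_or_gt e m with h5 | h5
        · exact Or.inl h5
        · exact Or.inr (hiff e he h5)
      · rw [← hcard]
        congr 1
        apply filter_congr
        intro e he
        exact ⟨fun h5 => lt_of_lt_of_le hM'.2 h5, hiff e he⟩

/-- every signature occurs for an interval of values -/
theorem signature {n : ℕ} (a : Fin (n + 1) → ℝ) (ha : StrictMono a) (D : Fin n → ℝ)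
    (hinj : Function.Injective D)
    (hD1 : ∀ i x, a i.castSucc ≤ x → x ≤ a i.succ → absP a x ≤ D i)
    (hD2 : ∀ i, ∃ x, a i.castSucc ≤ x ∧ x ≤ a i.succ ∧ absP a x = D i) (r : ℕ) (hr : r ≤ (n + 1) / 2) :
    ∃ L U : ℝ, 0 ≤ L ∧ L < U ∧ ∀ v : ℝ, L < v → v < U →
      {x : ℝ | ∏ l, (x - a l) = - v}.ncard = n + 1 - 2 * r := by
  classical
  set S := univ.filter fun i : Fin n => Odd (n - i : ℕ) with hS
  have hScard : S.card = (n + 1) / 2 := by
    have h1 : S.card = (univ.filter fun i : Fin n => Odd (i + 1 : ℕ)).card := by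
      rw [hS]
      apply card_bij' (fun i _ => Fin.rev i) (fun i _ => Fin.rev i)
      · intro i hi
        rw [mem_filter] at hi ⊢
        refine ⟨mem_univ _, ?_⟩
        rw [Fin.val_rev]
        have := i.2
        have h2 := hi.2
        rw [show n - (i + 1) + 1 = n - i by omega]
        exact h2
      · intro i hi
        rw [mem_filter] at hi ⊢
        refine ⟨mem_univ _, ?_⟩
        rw [Fin.val_rev]
        have := i.2
        have h2 := hi.2
        rw [show n - (n - (i + 1)) = i + 1 by omega]
        exact h2
      · intro i _; exact Fin.rev_rev i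
      · intro i _; exact Fin.rev_rev i
    rw [h1]
    have h2 : (univ.filter fun i : Fin n => Odd (i + 1 : ℕ)).card =
        ((range n).filter fun i => Odd (i + 1)).card := by
      rw [← card_map Fin.valEmbedding]
      congr 1
      ext j
      rw [mem_map, mem_filter, mem_range]
      constructor
      · rintro ⟨i, hi, rfl⟩
        rw [mem_filter] at hi
        exact ⟨i.2, hi.2⟩
      · rintro ⟨h3, h4⟩
        exact ⟨⟨j, h3⟩, by rw [mem_filter]; exact ⟨mem_univ _, h4⟩, rfl⟩
    rw [h2]
    have h3 : ∀ m : ℕ, ((range m).filter fun i => Odd (i + 1)).card = (m + 1) / 2 := by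
      intro m
      induction m with
      | zero => rfl
      | succ m ih =>
        rw [range_add_one, filter_insert]
        split_ifs with h
        · rw [card_insert_of_notMem (by simp), ih]
          rw [Nat.odd_iff] at h
          omega
        · rw [ih]
          rw [Nat.not_odd_iff] at h
          omega
    exact h3 n
  have hpos : ∀ e ∈ S.image D, 0 < e := by
    intro e he
    rw [mem_image] at he
    obtain ⟨i, -, rfl⟩ := he
    have hlt : a i.castSucc < a i.succ := ha (Fin.castSucc_lt_succ)
    have h1 := hD1 i ((a i.castSucc + a i.succ) / 2) (by linarith) (by linarith)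
    refine lt_of_lt_of_le ?_ h1
    rw [absP]
    apply prod_pos
    intro l _
    apply abs_pos.2
    intro h
    rcases le_or_gt l i.castSucc with hl | hl
    · have := ha.monotone hl; linarith
    · have := ha.monotone (Fin.castSucc_lt_iff_succ_le.1 hl); linarith
  have hcard : (S.image D).card = (n + 1) / 2 := by
    rw [card_image_of_injective _ hinj, hScard]
  obtain ⟨L, U, h1, h2, h3, h4⟩ := threshold (S.image D) hpos r (by rw [hcard]; exact hr)
  refine ⟨L, U, h1, h2, fun v hv1 hv2 => ?_⟩
  have hmem : ∀ i : Fin n, Odd (n - i : ℕ) → D i ∈ S.image D := fun i hi =>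
    mem_image_of_mem _ (by rw [hS, mem_filter]; exact ⟨mem_univ _, hi⟩)
  rw [count_real a ha D hD1 hD2 v (by linarith) (fun i hi h => by
    rcases h3 _ (hmem i hi) with h5 | h5 <;> linarith)]
  have h5 : (univ.filter fun i : Fin n => Odd (n - i : ℕ) ∧ v < D i).card =
      ((S.image D).filter fun e => U ≤ e).card := by
    rw [filter_image, card_image_of_injective _ hinj, hS, filter_filter]
    congr 1
    apply filter_congr
    intro i _
    constructor
    · rintro ⟨h6, h7⟩
      refine ⟨h6, ?_⟩
      rcases h3 _ (hmem i h6) with h8 | h8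
      · linarith
      · exact h8
    · rintro ⟨h6, h7⟩
      exact ⟨h6, by linarith⟩
  rw [h5, h4, hcard]
  omega

end Pool.Agent.Q22.CG
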