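import Pool.Agent.Q22.CG.Conf2
import Pool.Agent.Q22.CG.Fin

set_option autoImplicit false

/-! The data for all signatures. -/

namespace Pool.Agent.Q22.CG

open Polynomial
open Pool.Agent
open Pool.Agent.W289.CG (Dat pA)

/-- the sum of the reciprocals does not vanish -/
lemma sum_inv_ne {n : ℕ} (hn : 1 ≤ n) (a : Fin n → ℝ) (b b' : ℝ) (hbb : b ≠ b')
    (h1 : ∀ l, 0 < (b' - a l) / (b - a l)) (h2 : ∏ l, (b - a l) = ∏ l, (b' - a l)) :
    ∑ l, 1 / (b - a l) ≠ 0 := by
  intro h0
  have hne : ∀ l, b - a l ≠ 0 := fun l h => by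
    have := h1 l
    rw [h, div_zero] at this
    exact lt_irrefl _ this
  have h3 : ∀ l, (b' - a l) / (b - a l) < Real.exp ((b' - b) * (1 / (b - a l))) := by
    intro l
    have h4 : (b' - b) * (1 / (b - a l)) ≠ 0 :=
      mul_ne_zero (sub_ne_zero.2 (Ne.symm hbb)) (one_div_ne_zero (hne l))
    have h5 := Real.add_one_lt_exp h4
    have h6 : (b' - a l) / (b - a l) = (b' - b) * (1 / (b - a l)) + 1 := by
      have := hne l
      field_simp
      ring
    rwa [h6]
  have h4 : ∏ l, (b' - a l) / (b - a l) < ∏ l, Real.exp ((b' - b) * (1 / (b - a l))) :=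
    Finset.prod_lt_prod_of_nonempty (fun l _ => h1 l) (fun l _ => h3 l)
      ⟨⟨0, by omega⟩, Finset.mem_univ _⟩
  rw [← Real.exp_sum, ← Finset.mul_sum, h0, mul_zero, Real.exp_zero, Finset.prod_div_distrib, h2,
    div_self] at h4
  · exact lt_irrefl _ h4
  · rw [← h2]
    exact Finset.prod_ne_zero_iff.2 fun l _ => hne l

/-- the derivative -/
lemma der_ne {n : ℕ} (hn : 1 ≤ n) (a : Fin n → ℤ) (b b' : ℤ) (hbb : b ≠ b')
    (h1 : ∀ l, 0 < ((b' : ℝ) - a l) / (b - a l)) (h2 : ∏ l, (b - a l) = ∏ l, (b' - a l)) :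
    (derivative (pA a)).eval b ≠ 0 := by
  intro h0
  have h3 : ((∑ i, ∏ l ∈ Finset.univ.erase i, (b - a l) : ℤ) : ℝ) = 0 := by
    rw [W289.CG.pA, derivative_prod_finset, eval_finsetSum] at h0
    simp only [eval_mul, eval_prod, eval_sub, eval_X, eval_C, derivative_sub, derivative_X,
      derivative_C, sub_zero, eval_one, mul_one] at h0
    exact_mod_cast h0
  have hne : ∀ l, (b : ℝ) - a l ≠ 0 := fun l h => by
    have := h1 l
    rw [h, div_zero] at this
    exact lt_irrefl _ this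
  have h4 := sum_inv_ne hn (fun l => (a l : ℝ)) b b' (by exact_mod_cast hbb) h1 (by exact_mod_cast h2)
  apply h4
  have h5 : (∏ l, ((b : ℝ) - a l)) * ∑ l, 1 / ((b : ℝ) - a l) = 0 := by
    rw [Finset.mul_sum, ← h3]
    push_cast
    refine Finset.sum_congr rfl fun i _ => ?_
    rw [← Finset.mul_prod_erase _ _ (Finset.mem_univ i)]
    have := hne i
    field_simp
  rcases mul_eq_zero.1 h5 with h6 | h6
  · exact absurd h6 (Finset.prod_ne_zero_iff.2 fun l _ => hne l)
  · exact h6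

/-- roots -/
lemma root_m (m : ℕ) (hm : 2 ≤ m) (A : ℝ) (hA : 1 < A) : ∃ x : ℝ, 1 < x ∧ x ^ m = A := by
  refine ⟨A ^ ((m : ℝ)⁻¹), Real.one_lt_rpow hA (by positivity), ?_⟩
  exact Real.rpow_inv_natCast_pow (by linarith) (by omega)

theorem dat2 (n : ℕ) (hn : 3 ≤ n) (r : ℕ) (hr : r ≤ n / 2) (m : ℕ) (hm : 2 ≤ m) :
    ∃ (D : Dat n 2) (x y : ℝ), 1 < x ∧ x < y ∧
      ∀ s t : ℝ, 0 < s → x * s < t → t < y * s →
        {X : ℝ | ∏ i, (X - (D.a i : ℝ)) = - (s ^ m * D.c / (t ^ m - s ^ m))}.ncard = n - 2 * r := by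
  obtain ⟨k, rfl⟩ : ∃ k, n = k + 1 := ⟨n - 1, by omega⟩
  obtain ⟨a, ha⟩ := good2 k (by omega)
  obtain ⟨q, hq⟩ : ∃ q : ℕ, q = ∏ l, (a l).den := ⟨_, rfl⟩
  have hq0 : 0 < q := by rw [hq]; exact Finset.prod_pos fun l _ => (a l).den_pos
  have hqQ : (0 : ℚ) < q := by exact_mod_cast hq0
  have hqR : (0 : ℝ) < q := by exact_mod_cast hq0
  have hint : ∀ l, ∃ z : ℤ, (z : ℚ) = q * a l := by
    intro l
    have h1 : (a l).den ∣ q := by rw [hq]; exact Finset.dvd_prod_of_mem _ (Finset.mem_univ l)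
    obtain ⟨w, hw⟩ := h1
    refine ⟨w * (a l).num, ?_⟩
    rw [hw]
    push_cast
    rw [mul_comm ((a l).den : ℚ), mul_assoc, Rat.den_mul_eq_num]
  choose A hA using hint
  have hAR : ∀ l, (A l : ℝ) = q * (rc a) l := by
    intro l
    have : ((A l : ℚ) : ℝ) = ((q * a l : ℚ) : ℝ) := by rw [hA]
    push_cast at this
    exact this
  obtain ⟨c, hc⟩ : ∃ c : ℤ, c = ∏ l, ((q : ℤ) - A l) := ⟨_, rfl⟩
  have e1 : ∀ x : ℤ, ((∏ l, ((q : ℤ) * x - A l) : ℤ) : ℚ) = (q : ℚ) ^ (k + 1) * ∏ l, ((x : ℚ) - a l) := by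
    intro x
    push_cast
    have h2 : ∀ l, (q : ℚ) * x - A l = q * ((x : ℚ) - a l) := fun l => by rw [hA]; ring
    rw [Finset.prod_congr rfl fun l _ => h2 l, Finset.prod_mul_distrib, Finset.prod_const,
      Finset.card_univ, Fintype.card_fin]
  have hc1 : (c : ℚ) = (q : ℚ) ^ (k + 1) * ∏ l, (1 - a l) := by
    have := e1 1
    rw [mul_one] at this
    rw [hc, this]; push_cast; rfl
  have hcpos : 0 < c := by
    have : (0 : ℚ) < c := by rw [hc1]; exact mul_pos (by positivity) ha.pos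
    exact_mod_cast this
  have hcneg : c = ∏ l, (-(q : ℤ) - A l) := by
    have h2 := e1 (-1)
    have h3 : ((∏ l, (-(q : ℤ) - A l) : ℤ) : ℚ) = c := by
      rw [hc1, ha.eq]
      rw [show (q : ℤ) * -1 = -(q : ℤ) by ring] at h2
      rw [h2]; push_cast; rfl
    exact_mod_cast h3.symm
  have hfar : ∀ l, A l < -(q : ℤ) ∨ (q : ℤ) < A l := by
    intro l
    rcases ha.far l with h | h
    · left
      have : (A l : ℚ) < -(q : ℚ) := by rw [hA]; nlinarith
      exact_mod_cast this
    · right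
      have : (q : ℚ) < A l := by rw [hA]; nlinarith
      exact_mod_cast this
  have hAmono : StrictMono A := by
    intro i j hij
    have h1 := ha.mono hij
    have : (A i : ℚ) < A j := by rw [hA, hA]; exact mul_lt_mul_of_pos_left h1 hqQ
    exact_mod_cast this
  have hq0' : (0 : ℤ) < q := by exact_mod_cast hq0
  have hpos : ∀ l, 0 < (-(q : ℝ) - A l) / (q - A l) ∧ 0 < ((q : ℝ) - A l) / (-q - A l) := by
    intro l
    rcases hfar l with h | h
    · have h1 : (A l : ℝ) < -(q : ℝ) := by exact_mod_cast h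
      exact ⟨div_pos (by linarith) (by linarith), div_pos (by linarith) (by linarith)⟩
    · have h1 : (q : ℝ) < A l := by exact_mod_cast h
      exact ⟨div_pos_of_neg_of_neg (by linarith) (by linarith),
        div_pos_of_neg_of_neg (by linarith) (by linarith)⟩
  let D : Dat (k + 1) 2 :=
    { a := A
      b := ![-(q : ℤ), q]
      c := c
      ha := hAmono.injective
      hb := by
        intro i j hij
        fin_cases i <;> fin_cases j <;> simp at hij ⊢ <;> omega
      hc := hcpos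
      hab := by
        intro j
        rw [W289.CG.pA, eval_prod]
        simp only [eval_sub, eval_X, eval_C]
        fin_cases j
        · simp; exact hcneg.symm
        · simp; exact hc.symm
      hder := by
        intro j
        fin_cases j
        · exact der_ne (by omega) A (-(q : ℤ)) q (by omega) (fun l => by
            have := (hpos l).2; push_cast; exact this) (by rw [← hcneg, ← hc])
        · exact der_ne (by omega) A (q : ℤ) (-(q : ℤ)) (by omega) (fun l => by
            have := (hpos l).1; push_cast; exact this) (by rw [← hcneg, ← hc])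
      hlt := by
        intro j
        obtain ⟨l, hl⟩ := ha.ex
        have h1 : (q : ℤ) < A l := by
          have : (q : ℚ) < A l := by rw [hA]; nlinarith
          exact_mod_cast this
        refine ⟨l, ?_⟩
        fin_cases j
        · simp; omega
        · simpa using h1 }
  have hmonoR : StrictMono fun l => (A l : ℝ) := fun i j hij => Int.cast_lt.2 (hAmono hij)
  have hfun : (fun l => (A l : ℝ)) = fun l => q * (rc a) l := by funext l; exact hAR l
  have hinj : Function.Injective fun i : Fin k => dep i ((fun l => (A l : ℝ)), 0) := by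
    intro i j hij
    simp only [hfun] at hij
    rw [dep_smul i (rc a) q hqR, dep_smul j (rc a) q hqR] at hij
    exact ha.inj (mul_left_cancel₀ (by positivity) hij)
  obtain ⟨L, U, hL, hLU, hsig⟩ := signature (fun l => (A l : ℝ)) hmonoR
    (fun i => dep i ((fun l => (A l : ℝ)), 0)) hinj (fun i x h1 h2 => dep1 _ hmonoR i x h1 h2)
    (fun i => dep2 _ hmonoR i) r hr
  have hcR : (0 : ℝ) < c := by exact_mod_cast hcpos
  obtain ⟨v₁, hv₁⟩ : ∃ v₁ : ℝ, v₁ = (2 * L + U) / 3 := ⟨_, rfl⟩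
  obtain ⟨v₂, hv₂⟩ : ∃ v₂ : ℝ, v₂ = (L + 2 * U) / 3 := ⟨_, rfl⟩
  have hv1 : 0 < v₁ := by rw [hv₁]; linarith
  have hv12 : v₁ < v₂ := by rw [hv₁, hv₂]; linarith
  have hv2 : 0 < v₂ := hv1.trans hv12
  have hcv : (c : ℝ) / v₂ < c / v₁ := div_lt_div_of_pos_left hcR hv1 hv12
  have hcv0 : 0 < (c : ℝ) / v₂ := div_pos hcR hv2
  obtain ⟨x, hx1, hxm⟩ := root_m m hm (1 + c / v₂) (by linarith)
  obtain ⟨y, hy1, hym⟩ := root_m m hm (1 + c / v₁) (by linarith)
  have hxy : x < y := by
    have h1 : x ^ m < y ^ m := by rw [hxm, hym]; linarith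
    exact lt_of_pow_lt_pow_left₀ m (by linarith) h1
  refine ⟨D, x, y, hx1, hxy, ?_⟩
  intro s t hs hxs hys
  have hsm : 0 < s ^ m := by positivity
  have h1 : (1 + c / v₂) * s ^ m < t ^ m := by
    rw [← hxm, ← mul_pow]
    exact pow_lt_pow_left₀ hxs (by positivity) (by omega)
  have h2 : t ^ m < (1 + c / v₁) * s ^ m := by
    rw [← hym, ← mul_pow]
    exact pow_lt_pow_left₀ hys (lt_trans (by positivity) hxs).le (by omega)
  have h3 : (c : ℝ) / v₂ * s ^ m < t ^ m - s ^ m := by linarith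
  have h4 : t ^ m - s ^ m < (c : ℝ) / v₁ * s ^ m := by linarith
  have h5 : 0 < t ^ m - s ^ m := lt_trans (by positivity) h3
  have h6 := hsig (s ^ m * c / (t ^ m - s ^ m)) (by
    have : v₁ < s ^ m * c / (t ^ m - s ^ m) := by
      rw [lt_div_iff₀ h5]
      calc v₁ * (t ^ m - s ^ m) < v₁ * (c / v₁ * s ^ m) := mul_lt_mul_of_pos_left h4 hv1
        _ = s ^ m * c := by field_simp
    have h7 : L < v₁ := by rw [hv₁]; linarith
    linarith) (by
    have : s ^ m * c / (t ^ m - s ^ m) < v₂ := by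
      rw [div_lt_iff₀ h5]
      calc s ^ m * c = v₂ * (c / v₂ * s ^ m) := by field_simp
        _ < v₂ * (t ^ m - s ^ m) := mul_lt_mul_of_pos_left h3 hv2
    have h7 : v₂ < U := by rw [hv₂]; linarith
    linarith)
  exact h6

end Pool.Agent.Q22.CG
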